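import Pool.Agent.H34x.NT.Good

/-!
# Zero sum vectors with pairwise coprime coordinates near a real point, existence
-/

set_option autoImplicit false

namespace Pool.Agent.H34x.NT

open Finset

/-- a zero sum vector with pairwise coprime coordinates -/
def rz (m : ℕ) : Fin (m + 1) → ℤ := fun i => if i = Fin.last m then -(m : ℤ) else 1

theorem rz_sum (m : ℕ) : ∑ i, rz m i = 0 := by
  rw [Fin.sum_univ_castSucc]
  unfold rz
  have h1 : ∀ j : Fin m, (if (j.castSucc : Fin (m + 1)) = Fin.last m then -(m : ℤ) else 1) = 1 :=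
    fun j => if_neg (Fin.castSucc_ne_last j)
  simp only [h1, if_true]
  simp

/-- another index -/
def nx {m : ℕ} (hm : 2 ≤ m) (j : Fin (m + 1)) : Fin (m + 1) :=
  if j = ⟨0, by omega⟩ then ⟨1, by omega⟩ else ⟨0, by omega⟩

theorem nx_ne {m : ℕ} (hm : 2 ≤ m) (j : Fin (m + 1)) : nx hm j ≠ j := by
  unfold nx
  split_ifs with h
  · rw [h]
    intro h'
    have := congrArg Fin.val h'
    simp at this
  · exact fun h' => h h'.symm

/-- a zero sum vector with the only small coordinate `j` -/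
def rj {m : ℕ} (hm : 2 ≤ m) (j : Fin (m + 1)) : Fin (m + 1) → ℤ := fun i =>
  1 - (if i = j then 1 else 0) - (if i = nx hm j then (m : ℤ) else 0)

theorem rj_sum {m : ℕ} (hm : 2 ≤ m) (j : Fin (m + 1)) : ∑ i, rj hm j i = 0 := by
  unfold rj
  rw [Finset.sum_sub_distrib, Finset.sum_sub_distrib]
  simp

theorem rj_self {m : ℕ} (hm : 2 ≤ m) (j : Fin (m + 1)) : rj hm j j = 0 := by
  unfold rj
  rw [if_pos rfl, if_neg (nx_ne hm j).symm]
  ring

theorem rj_ne {m : ℕ} (hm : 2 ≤ m) {j i : Fin (m + 1)} (h : i ≠ j) {q : ℕ} (hq : m < q) :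
    ¬ (q : ℤ) ∣ rj hm j i := by
  unfold rj
  rw [if_neg h, sub_zero]
  split_ifs
  · intro hd
    have h1 : (q : ℤ) ∣ (m : ℤ) - 1 := by
      have := (dvd_neg (α := ℤ)).2 hd
      have h2 : -(1 - (m : ℤ)) = m - 1 := by ring
      rwa [h2] at this
    have h2 := Int.le_of_dvd (by omega) h1
    omega
  · intro hd
    rw [sub_zero] at hd
    have h2 := Int.le_of_dvd one_pos hd
    omega

/-- an element which is `1` modulo `q` and `0` modulo `q'` -/
theorem idem {q q' : ℤ} (h : IsCoprime q q') : ∃ s : ℤ, q ∣ s - 1 ∧ q' ∣ s := by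
  obtain ⟨a, c, hac⟩ := h
  refine ⟨c * q', ⟨-a, ?_⟩, Dvd.intro_left _ rfl⟩
  linear_combination hac

theorem base {m : ℕ} (hm : 2 ≤ m) (W : ℤ) (M : Fin (m + 1) → ℤ)
    (hW : ∀ j, IsCoprime W (M j)) (hM : ∀ i j, i ≠ j → IsCoprime (M i) (M j)) :
    ∃ r : Fin (m + 1) → ℤ, ∑ i, r i = 0 ∧ (∀ i, W ∣ r i - rz m i) ∧
      ∀ j i, M j ∣ r i - rj hm j i := by
  obtain ⟨s, hs1, hs2⟩ := idem (IsCoprime.prod_right (s := M) (t := univ) fun j _ => hW j)
  have hex : ∀ j, ∃ u : ℤ, M j ∣ u - 1 ∧ W * ∏ i ∈ univ.erase j, M i ∣ u := by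
    intro j
    apply idem
    apply IsCoprime.mul_right (hW j).symm
    exact IsCoprime.prod_right fun i hi => hM j i (ne_of_mem_erase hi).symm
  choose u hu1 hu2 using hex
  have hu3 : ∀ j, W ∣ u j := fun j => (Dvd.intro _ rfl).trans (hu2 j)
  have hu4 : ∀ i j, i ≠ j → M i ∣ u j := fun i j hij =>
    ((Finset.dvd_prod_of_mem M (mem_erase.2 ⟨hij, mem_univ _⟩)).trans
      (Dvd.intro_left _ rfl)).trans (hu2 j)
  refine ⟨fun i => s * rz m i + ∑ j, u j * rj hm j i, ?_, ?_, ?_⟩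
  · rw [Finset.sum_add_distrib, ← Finset.mul_sum, rz_sum, mul_zero, zero_add, Finset.sum_comm]
    apply Finset.sum_eq_zero
    intro j _
    rw [← Finset.mul_sum, rj_sum, mul_zero]
  · intro i
    have h1 : s * rz m i + ∑ j, u j * rj hm j i - rz m i =
        (s - 1) * rz m i + ∑ j, u j * rj hm j i := by ring
    rw [h1]
    exact dvd_add (hs1.mul_right _) (Finset.dvd_sum fun j _ => (hu3 j).mul_right _)
  · intro j i
    have h1 : s * rz m i + ∑ k, u k * rj hm k i - rj hm j i =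
        s * rz m i + (u j - 1) * rj hm j i + ∑ k ∈ univ.erase j, u k * rj hm k i := by
      rw [← Finset.add_sum_erase univ (fun k => u k * rj hm k i) (mem_univ j)]
      ring
    rw [h1]
    refine dvd_add (dvd_add ?_ ((hu1 j).mul_right _)) (Finset.dvd_sum fun k hk => ?_)
    · exact ((Finset.dvd_prod_of_mem M (mem_univ j)).trans hs2).mul_right _
    · exact (hu4 j k (ne_of_mem_erase hk).symm).mul_right _

theorem GA_sum {m : ℕ} (w : ℤ) (Z : Matrix (Fin m) (Fin m) ℤ) (l : Fin m) :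
    ∑ i, GA w Z i l = 0 := by
  unfold GA
  rw [← Finset.mul_sum, Finset.sum_comm]
  have h1 : ∀ j, ∑ i, PP m i j * Z l j = 0 := fun j => by
    rw [← Finset.sum_mul, PP_sum, zero_mul]
  simp [h1]

/-- real coordinates of a zero sum vector -/
theorem real_coord {m : ℕ} {w : ℤ} (hw : w ≠ 0) (Z : Matrix (Fin m) (Fin m) ℤ) (hZ : Z.det ≠ 0)
    (y : Fin (m + 1) → ℝ) (hy : ∑ i, y i = 0) :
    ∃ t : Fin m → ℝ, ∀ i, ∑ l, t l * (GA w Z i l : ℝ) = y i := by
  set ZR : Matrix (Fin m) (Fin m) ℝ := Z.map (Int.castRingHom ℝ) with hZR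
  have hdet : ZR.det ≠ 0 := by
    have h1 : ZR.det = ((Z.det : ℤ) : ℝ) := ((Int.castRingHom ℝ).map_det Z).symm
    rw [h1]
    exact_mod_cast hZ
  have hwR : (w : ℝ) ≠ 0 := by exact_mod_cast hw
  set v : Fin m → ℝ := fun j => y j.castSucc / w with hv
  refine ⟨Matrix.vecMul v ZR⁻¹, ?_⟩
  have h1 : Matrix.vecMul (Matrix.vecMul v ZR⁻¹) ZR = v := by
    rw [Matrix.vecMul_vecMul, Matrix.nonsing_inv_mul _ (isUnit_iff_ne_zero.2 hdet),
      Matrix.vecMul_one]
  have hc : ∀ j : Fin m, ∑ l, Matrix.vecMul v ZR⁻¹ l * (GA w Z j.castSucc l : ℝ) =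
      y j.castSucc := by
    intro j
    have h2 := congrFun h1 j
    simp only [Matrix.vecMul, dotProduct] at h2 ⊢
    have h3 : ∀ l, (GA w Z j.castSucc l : ℝ) = w * ZR l j := by
      intro l
      unfold GA
      rw [PP_castSucc]
      push_cast
      rfl
    simp only [h3]
    have h4 : ∀ l, (∑ i, v i * ZR⁻¹ i l) * (w * ZR l j) =
        w * ((∑ i, v i * ZR⁻¹ i l) * ZR l j) := fun l => by ring
    simp only [h4]
    rw [← Finset.mul_sum, h2, hv]
    field_simp
  intro i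
  refine Fin.lastCases ?_ (fun j => hc j) i
  have h2 : ∀ l, (GA w Z (Fin.last m) l : ℝ) = - ∑ j : Fin m, (GA w Z j.castSucc l : ℝ) := by
    intro l
    have h3 := GA_sum w Z l
    rw [Fin.sum_univ_castSucc] at h3
    have h4 : ((∑ j : Fin m, GA w Z j.castSucc l + GA w Z (Fin.last m) l : ℤ) : ℝ) = 0 := by
      rw [h3]; simp
    push_cast at h4
    linarith
  simp only [h2, mul_neg, Finset.sum_neg_distrib, Finset.mul_sum]
  rw [Finset.sum_comm]
  simp only [hc]
  rw [Fin.sum_univ_castSucc] at hy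
  linarith

theorem GA_bound {m : ℕ} {w : ℤ} (hw : 0 < w) (Z : Matrix (Fin m) (Fin m) ℤ) {U : ℝ} (hU0 : 0 ≤ U)
    (hU : ∀ j l, |(Z j l : ℝ)| ≤ U) (i : Fin (m + 1)) (l : Fin m) :
    |(GA w Z i l : ℝ)| ≤ w * (m * U) := by
  unfold GA
  push_cast
  have hwR : (0 : ℝ) < w := by exact_mod_cast hw
  rw [abs_mul, abs_of_pos hwR]
  apply mul_le_mul_of_nonneg_left _ hwR.le
  refine (Finset.abs_sum_le_sum_abs _ _).trans ?_
  have h1 : ∀ j ∈ (univ : Finset (Fin m)), |(PP m i j : ℝ) * Z l j| ≤ U := by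
    intro j _
    rw [abs_mul]
    have h2 : |(PP m i j : ℝ)| ≤ 1 := by
      unfold PP
      split_ifs <;> simp
    calc |(PP m i j : ℝ)| * |(Z l j : ℝ)| ≤ 1 * U :=
          mul_le_mul h2 (hU l j) (abs_nonneg _) zero_le_one
      _ = U := one_mul _
  refine (Finset.sum_le_card_nsmul _ _ _ h1).trans ?_
  rw [Finset.card_univ, Fintype.card_fin, nsmul_eq_mul]

open scoped Classical in
/-- **Zero sum vectors with pairwise coprime coordinates near a real point.** -/
theorem exists_point {m : ℕ} (hm : 2 ≤ m) {P0 : ℕ} (hP0 : 16 * (m + 1) ^ 2 ≤ P0)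
    (b : Fin (m + 1) → ℕ) (hbp : ∀ i, (b i).Prime) (hbi : ∀ i j, i ≠ j → b i ≠ b j)
    (hbP : ∀ i, P0 < b i) (w : ℤ) (hw : w = (P0.factorial : ℤ) * ∏ i, (b i : ℤ))
    (e : Fin (m + 1) → ℕ) (he : ∀ i, 1 ≤ e i)
    (Z : Matrix (Fin m) (Fin m) ℤ)
    (hZd : ∀ j i, (b i : ℤ) ^ (e i) ∣ ∑ l, PP m i l * Z j l) {U : ℝ} (hU0 : 0 ≤ U)
    (hU : ∀ j l, |(Z j l : ℝ)| ≤ U) (hZ0 : Z.det ≠ 0)
    (hZp : ∀ p : ℕ, p.Prime → P0 < p → (∀ i, ¬ p ∣ b i) → ¬ (p : ℤ) ∣ Z.det)
    {K : ℕ} (hK : 1 ≤ K) {Y : ℝ} (y : Fin (m + 1) → ℝ) (hy : ∑ i, y i = 0)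
    (hyY : ∀ i, |y i| ≤ Y) {X ω : ℕ} (hX1 : w * (m * U) ≤ X)
    (hX2 : 2 * (w * (m * U)) * (Y + m * K * (w * (m * U))) ≤ X) (hω : X < K ^ (ω + 1))
    (hbig : 4 * ((m + 1) ^ 2 * (1 + 2 * ω) + 2 ^ (m + 1)) ≤ K) :
    ∃ x : Fin (m + 1) → ℤ, ∑ i, x i = 0 ∧ (∀ i, (b i : ℤ) ^ (e i) ∣ x i) ∧
      (∀ i j, i ≠ j → IsCoprime (x i) (x j)) ∧
      (∀ I : Finset (Fin (m + 1)), I.Nonempty → I ≠ univ → ∑ i ∈ I, x i ≠ 0) ∧
      ∀ i, |(x i : ℝ) - y i| ≤ m * K * (w * (m * U)) := by
  have hmP : m < P0 := by nlinarith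
  have hP00 : 0 < P0 := by omega
  have hfac : ∀ p : ℕ, p.Prime → P0 < p → ¬ (p : ℤ) ∣ (P0.factorial : ℤ) := by
    intro p hp hlt hd
    have h1 : p ∣ P0.factorial := by exact_mod_cast hd
    exact absurd ((hp.dvd_factorial).1 h1) (by omega)
  have hbpos : ∀ i, (0 : ℤ) < b i := fun i => by exact_mod_cast (hbp i).pos
  have hw0 : 0 < w := by
    rw [hw]
    have : (0 : ℤ) < P0.factorial := by exact_mod_cast Nat.factorial_pos _
    have h2 : 0 < ∏ i, (b i : ℤ) := Finset.prod_pos fun i _ => hbpos i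
    positivity
  have hwR : (0 : ℝ) < w := by exact_mod_cast hw0
  -- the base point
  obtain ⟨r, hr1, hr2, hr3⟩ := base hm (P0.factorial : ℤ) (fun j => (b j : ℤ) ^ (e j)) (by
      intro j
      apply IsCoprime.pow_right
      apply Nat.isCoprime_iff_coprime.2
      apply Nat.Coprime.symm
      rw [Nat.Prime.coprime_iff_not_dvd (hbp j)]
      intro hd
      exact absurd (((hbp j).dvd_factorial).1 hd) (by have := hbP j; omega)) (by
      intro i j hij
      apply IsCoprime.pow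
      apply Nat.isCoprime_iff_coprime.2
      exact (Nat.coprime_primes (hbp i) (hbp j)).2 (hbi i j hij))
  obtain ⟨t, ht⟩ := real_coord hw0.ne' Z hZ0 (fun i => y i - r i) (by
    rw [Finset.sum_sub_distrib, hy]
    have : ((∑ i, r i : ℤ) : ℝ) = 0 := by rw [hr1]; simp
    push_cast at this
    rw [this, sub_zero])
  set c : Fin m → ℤ := fun l => ⌊t l⌋ with hc
  set α : Fin (m + 1) → ℤ := fun i => r i + ∑ l, c l * GA w Z i l with hα
  set x : (Fin m → ℕ) → Fin (m + 1) → ℤ := fun k i => α i + ∑ l, (k l : ℤ) * GA w Z i l with hx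
  have hGU : ∀ i l, |(GA w Z i l : ℝ)| ≤ w * (m * U) := GA_bound hw0 Z hU0 hU
  have hV0 : (0 : ℝ) ≤ w * (m * U) := by positivity
  have hKR : (1 : ℝ) ≤ K := by exact_mod_cast hK
  -- the distance
  have hdist : ∀ k ∈ Om m K, ∀ i, |(x k i : ℝ) - y i| ≤ m * K * (w * (m * U)) := by
    intro k hk i
    have h1 : (x k i : ℝ) - y i = ∑ l, ((c l : ℝ) + k l - t l) * (GA w Z i l : ℝ) := by
      have h2 := ht i
      simp only [hx, hα]
      push_cast
      have h3 : ∑ l, ((c l : ℝ) + k l - t l) * (GA w Z i l : ℝ) =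
          ∑ l, (c l : ℝ) * (GA w Z i l : ℝ) + ∑ l, (k l : ℝ) * (GA w Z i l : ℝ) -
            ∑ l, t l * (GA w Z i l : ℝ) := by
        rw [← Finset.sum_add_distrib, ← Finset.sum_sub_distrib]
        refine Finset.sum_congr rfl fun l _ => by ring
      rw [h3, h2]
      ring
    rw [h1]
    refine (Finset.abs_sum_le_sum_abs _ _).trans ?_
    have h2 : ∀ l ∈ (univ : Finset (Fin m)), |((c l : ℝ) + k l - t l) * (GA w Z i l : ℝ)| ≤
        K * (w * (m * U)) := by
      intro l _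
      rw [abs_mul]
      apply mul_le_mul _ (hGU i l) (abs_nonneg _) (by positivity)
      have h3 : ((k l : ℕ) : ℝ) + 1 ≤ K := by exact_mod_cast (mem_Om.1 hk l)
      have h4 : (0 : ℝ) ≤ (k l : ℕ) := Nat.cast_nonneg _
      have h5 := Int.floor_le (t l)
      have h6 := Int.lt_floor_add_one (t l)
      rw [abs_le]
      simp only [hc]
      constructor <;> linarith
    refine (Finset.sum_le_card_nsmul _ _ _ h2).trans ?_
    rw [Finset.card_univ, Fintype.card_fin, nsmul_eq_mul]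
    linarith
  -- the bad sets
  set good : ℕ → Prop := fun p => ¬ (p : ℤ) ∣ w with hgood
  have hgood1 : ∀ p, p.Prime → good p → P0 < p ∧ ∀ i, ¬ p ∣ b i := by
    intro p hp hg
    constructor
    · by_contra hle
      push Not at hle
      apply hg
      rw [hw]
      apply Dvd.dvd.mul_right
      exact_mod_cast Nat.dvd_factorial hp.pos hle
    · intro i hi
      apply hg
      rw [hw]
      apply Dvd.dvd.mul_left
      exact Dvd.dvd.trans (by exact_mod_cast hi) (Finset.dvd_prod_of_mem (fun i => (b i : ℤ)) (mem_univ i))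
  have hmin : ∀ i i' : Fin (m + 1), i ≠ i' → ∀ p, p.Prime → good p →
      ∃ l l', ¬ (p : ℤ) ∣ GA w Z i l * GA w Z i' l' - GA w Z i l' * GA w Z i' l := by
    intro i i' hii p hp hg
    obtain ⟨h1, h2⟩ := hgood1 p hp hg
    exact GA_mod hm Z hp hg (hZp p hp h1 h2) hii
  have hxb : ∀ k ∈ Om m K, ∀ i, |(x k i : ℝ)| ≤ Y + m * K * (w * (m * U)) := by
    intro k hk i
    have h1 := hdist k hk i
    have h2 := hyY i
    have h3 : (x k i : ℝ) = (x k i - y i) + y i := by ring
    rw [h3]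
    exact (abs_add_le _ _).trans (by linarith)
  set S : Fin (m + 1) × Fin (m + 1) → Finset (Fin m → ℕ) := fun q =>
    ((Om m K).filter fun k => ∃ p : ℕ, p.Prime ∧ K < p ∧ good p ∧
      (p : ℤ) ∣ x k q.1 ∧ (p : ℤ) ∣ x k q.2) ∪
    ((Om m K).filter fun k => ∃ p : ℕ, p.Prime ∧ P0 < p ∧ p ≤ K ∧ good p ∧
      (p : ℤ) ∣ x k q.1 ∧ (p : ℤ) ∣ x k q.2) with hS
  set T : Finset (Fin (m + 1)) → Finset (Fin m → ℕ) := fun I =>
    (Om m K).filter fun k => ∑ i ∈ I, x k i = 0 with hT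
  set PR : Finset (Fin (m + 1) × Fin (m + 1)) := univ.filter fun q => q.1 ≠ q.2 with hPR
  set SS : Finset (Finset (Fin (m + 1))) := univ.filter fun I => I.Nonempty ∧ I ≠ univ with hSS
  have cS : ∀ q ∈ PR, ((S q).card : ℝ) ≤ (1 + 2 * ω) * (K : ℝ) ^ (m - 1) + 4 / P0 * (K : ℝ) ^ m := by
    intro q hq
    rw [hPR, mem_filter] at hq
    obtain ⟨l, hl, l', hl'⟩ := GA_zero hm hw0.ne' Z hZ0 hq.2
    have h1 := big_primes hm (by omega : 0 < K) hω (GA w Z q.1) (GA w Z q.2) (α q.1) (α q.2)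
      (i0 := l') (j0 := l) hl hl' good (hmin q.1 q.2 hq.2) (by
        have h2 := hGU q.1 l
        have h3 : ((GA w Z q.1 l).natAbs : ℝ) ≤ X := by
          rw [Nat.cast_natAbs, Int.cast_abs]
          exact h2.trans hX1
        exact_mod_cast h3) (by
        intro k hk
        have h2 : ((GA w Z q.1 l * (α q.2 + ∑ l, (k l : ℤ) * GA w Z q.2 l) -
            GA w Z q.2 l * (α q.1 + ∑ l, (k l : ℤ) * GA w Z q.1 l)).natAbs : ℝ) ≤ X := by
          rw [Nat.cast_natAbs, Int.cast_abs]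
          have h3 := hxb k hk q.1
          have h4 := hxb k hk q.2
          simp only [hx] at h3 h4
          rw [Int.cast_sub, Int.cast_mul, Int.cast_mul]
          refine (abs_sub _ _).trans ?_
          rw [abs_mul, abs_mul]
          have h5 := mul_le_mul (hGU q.1 l) h4 (abs_nonneg _) hV0
          have h6 := mul_le_mul (hGU q.2 l) h3 (abs_nonneg _) hV0
          linarith
        exact_mod_cast h2)
    have h2 := small_primes hm (by omega : 0 < K) hP00 (GA w Z q.1) (GA w Z q.2) (α q.1) (α q.2)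
      good (hmin q.1 q.2 hq.2)
    have h3 : ((S q).card : ℝ) ≤ (((Om m K).filter fun k => ∃ p : ℕ, p.Prime ∧ K < p ∧ good p ∧
      (p : ℤ) ∣ x k q.1 ∧ (p : ℤ) ∣ x k q.2).card : ℝ) +
      (((Om m K).filter fun k => ∃ p : ℕ, p.Prime ∧ P0 < p ∧ p ≤ K ∧ good p ∧
      (p : ℤ) ∣ x k q.1 ∧ (p : ℤ) ∣ x k q.2).card : ℝ) := by
      exact_mod_cast Finset.card_union_le _ _
    have h4 : (((Om m K).filter fun k => ∃ p : ℕ, p.Prime ∧ K < p ∧ good p ∧
      (p : ℤ) ∣ x k q.1 ∧ (p : ℤ) ∣ x k q.2).card : ℝ) ≤ (1 + 2 * ω) * (K : ℝ) ^ (m - 1) := by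
      exact_mod_cast h1
    have h5 : (((Om m K).filter fun k => ∃ p : ℕ, p.Prime ∧ P0 < p ∧ p ≤ K ∧ good p ∧
      (p : ℤ) ∣ x k q.1 ∧ (p : ℤ) ∣ x k q.2).card : ℝ) ≤ 4 / P0 * (K : ℝ) ^ m := h2
    linarith
  have cT : ∀ I ∈ SS, (T I).card ≤ K ^ (m - 1) := by
    intro I hI
    rw [hSS, mem_filter] at hI
    obtain ⟨l, hl⟩ := GA_sub hw0.ne' Z hZ0 hI.2.1 hI.2.2
    have h1 := one_zero (by omega : 0 < K) (fun l => ∑ i ∈ I, GA w Z i l) (∑ i ∈ I, α i) hl
    have h2 : T I = (Om m K).filter fun k =>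
        ∑ i ∈ I, α i + ∑ l, (k l : ℤ) * (∑ i ∈ I, GA w Z i l) = 0 := by
      simp only [hT]
      apply Finset.filter_congr
      intro k _
      have h3 : ∑ i ∈ I, x k i = ∑ i ∈ I, α i + ∑ l, (k l : ℤ) * (∑ i ∈ I, GA w Z i l) := by
        simp only [hx]
        rw [Finset.sum_add_distrib, Finset.sum_comm]
        congr 1
        refine Finset.sum_congr rfl fun l _ => ?_
        rw [Finset.mul_sum]
      rw [h3]
    rw [h2]
    exact h1
  set Bad := PR.biUnion S ∪ SS.biUnion T with hBad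
  have hBadcard : (Bad.card : ℝ) < (K : ℝ) ^ m := by
    have h1 : (Bad.card : ℝ) ≤ ∑ q ∈ PR, ((S q).card : ℝ) + ∑ I ∈ SS, ((T I).card : ℝ) := by
      have h2 : Bad.card ≤ ∑ q ∈ PR, (S q).card + ∑ I ∈ SS, (T I).card :=
        (Finset.card_union_le _ _).trans (Nat.add_le_add Finset.card_biUnion_le
          Finset.card_biUnion_le)
      exact_mod_cast h2
    have h2 : ∑ q ∈ PR, ((S q).card : ℝ) ≤
        ((m : ℝ) + 1) ^ 2 * ((1 + 2 * ω) * (K : ℝ) ^ (m - 1) + 4 / P0 * (K : ℝ) ^ m) := by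
      refine (Finset.sum_le_card_nsmul _ _ _ cS).trans ?_
      rw [nsmul_eq_mul]
      apply mul_le_mul_of_nonneg_right _ (by positivity)
      have h3 : PR.card ≤ (m + 1) ^ 2 := by
        refine (Finset.card_filter_le _ _).trans ?_
        rw [Finset.card_univ, Fintype.card_prod, Fintype.card_fin, sq]
      exact_mod_cast h3
    have h3 : ∑ I ∈ SS, ((T I).card : ℝ) ≤ 2 ^ (m + 1) * (K : ℝ) ^ (m - 1) := by
      have h4 : ∑ I ∈ SS, (T I).card ≤ 2 ^ (m + 1) * K ^ (m - 1) := by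
        refine (Finset.sum_le_card_nsmul _ _ _ cT).trans ?_
        rw [smul_eq_mul]
        apply Nat.mul_le_mul_right
        refine (Finset.card_filter_le _ _).trans ?_
        rw [Finset.card_univ, Fintype.card_finset, Fintype.card_fin]
      exact_mod_cast h4
    have h4 : (K : ℝ) ^ m = K * (K : ℝ) ^ (m - 1) := by
      rw [← pow_succ']
      congr 1
      omega
    have h5 : 0 < (K : ℝ) ^ (m - 1) := by positivity
    have h6 : 4 * (((m : ℝ) + 1) ^ 2 * (1 + 2 * ω) + 2 ^ (m + 1)) ≤ K := by exact_mod_cast hbig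
    have h7 : ((m : ℝ) + 1) ^ 2 * (4 / P0) ≤ 1 / 4 := by
      have h8 : (16 : ℝ) * ((m : ℝ) + 1) ^ 2 ≤ P0 := by exact_mod_cast hP0
      have h9 : (0 : ℝ) < P0 := by exact_mod_cast hP00
      rw [mul_div_assoc', div_le_div_iff₀ h9 (by norm_num)]
      linarith
    have h8 : 0 < (K : ℝ) ^ m := by positivity
    have h9 : ((m : ℝ) + 1) ^ 2 * (4 / P0 * (K : ℝ) ^ m) ≤ 1 / 4 * (K : ℝ) ^ m := by
      rw [← mul_assoc]
      exact mul_le_mul_of_nonneg_right h7 h8.le
    have h10 : (((m : ℝ) + 1) ^ 2 * (1 + 2 * ω) + 2 ^ (m + 1)) * (K : ℝ) ^ (m - 1) ≤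
        1 / 4 * (K : ℝ) ^ m := by
      rw [h4, ← mul_assoc]
      apply mul_le_mul_of_nonneg_right _ h5.le
      linarith
    nlinarith
  obtain ⟨k, hk, hkB⟩ : ∃ k ∈ Om m K, k ∉ Bad := by
    by_contra hcon
    push Not at hcon
    have h1 : (Om m K).card ≤ Bad.card := Finset.card_le_card hcon
    rw [card_Om] at h1
    have h2 : ((K ^ m : ℕ) : ℝ) ≤ (Bad.card : ℝ) := by exact_mod_cast h1
    push_cast at h2
    linarith
  have hwmod : ∀ i, w ∣ x k i - r i := by
    intro i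
    simp only [hx, hα]
    have h1 : r i + ∑ l, c l * GA w Z i l + ∑ l, (k l : ℤ) * GA w Z i l - r i =
        ∑ l, c l * GA w Z i l + ∑ l, (k l : ℤ) * GA w Z i l := by ring
    rw [h1]
    have h2 : ∀ l, w ∣ GA w Z i l := fun l => Dvd.intro _ rfl
    exact dvd_add (Finset.dvd_sum fun l _ => (h2 l).mul_left _)
      (Finset.dvd_sum fun l _ => (h2 l).mul_left _)
  refine ⟨x k, ?_, ?_, ?_, ?_, hdist k hk⟩
  · simp only [hx, hα]
    rw [Finset.sum_add_distrib, Finset.sum_add_distrib, hr1, zero_add, Finset.sum_comm,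
      Finset.sum_comm (f := fun i l => (k l : ℤ) * GA w Z i l)]
    simp only [← Finset.mul_sum, GA_sum, mul_zero, Finset.sum_const_zero, add_zero]
  · intro i
    have h1 : ∀ l, (b i : ℤ) ^ (e i) ∣ GA w Z i l := by
      intro l
      unfold GA
      exact (hZd l i).mul_left _
    have h2 : (b i : ℤ) ^ (e i) ∣ r i := by
      have h3 := hr3 i i
      rw [rj_self, sub_zero] at h3
      exact h3
    simp only [hx, hα]
    exact dvd_add (dvd_add h2 (Finset.dvd_sum fun l _ => (h1 l).mul_left _))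
      (Finset.dvd_sum fun l _ => (h1 l).mul_left _)
  · intro i j hij
    rw [Int.isCoprime_iff_gcd_eq_one]
    by_contra hne
    obtain ⟨p, hp, hpd⟩ := Nat.exists_prime_and_dvd hne
    have h1 : (p : ℤ) ∣ x k i := (Int.natCast_dvd_natCast.2 hpd).trans (Int.gcd_dvd_left ..)
    have h2 : (p : ℤ) ∣ x k j := (Int.natCast_dvd_natCast.2 hpd).trans (Int.gcd_dvd_right ..)
    by_cases hpP : p ≤ P0
    · -- small primes
      have h3 : (p : ℤ) ∣ (P0.factorial : ℤ) := by exact_mod_cast Nat.dvd_factorial hp.pos hpP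
      have h4 : ∀ i, (p : ℤ) ∣ x k i → (p : ℤ) ∣ rz m i := by
        intro i hi
        have h5 : (p : ℤ) ∣ x k i - r i := by
          refine Dvd.dvd.trans (h3.trans ?_) (hwmod i)
          rw [hw]
          exact Dvd.intro _ rfl
        have h6 : (p : ℤ) ∣ r i - rz m i := h3.trans (hr2 i)
        have h7 := dvd_sub (dvd_sub hi h5) h6
        have h8 : x k i - (x k i - r i) - (r i - rz m i) = rz m i := by ring
        rwa [h8] at h7
      have h5 := h4 i h1
      have h6 := h4 j h2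
      unfold rz at h5 h6
      have hone : ¬ (p : ℤ) ∣ 1 := by
        intro h7
        have := Int.le_of_dvd one_pos h7
        have := hp.two_le
        omega
      by_cases hi : i = Fin.last m
      · have hj : j ≠ Fin.last m := fun h => hij (hi.trans h.symm)
        rw [if_neg hj] at h6
        exact hone h6
      · rw [if_neg hi] at h5
        exact hone h5
    · push Not at hpP
      by_cases hpb : ∃ j', p ∣ b j'
      · obtain ⟨j', hj'⟩ := hpb
        have hpe : p = b j' := (Nat.prime_dvd_prime_iff_eq hp (hbp j')).1 hj'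
        have h4 : ∀ i, (p : ℤ) ∣ x k i → (p : ℤ) ∣ rj hm j' i := by
          intro i hi
          have h3 : (p : ℤ) ∣ w := by
            rw [hw]
            apply Dvd.dvd.mul_left
            rw [hpe]
            exact Finset.dvd_prod_of_mem (fun i => (b i : ℤ)) (mem_univ j')
          have h5 : (p : ℤ) ∣ x k i - r i := h3.trans (hwmod i)
          have h6 : (p : ℤ) ∣ r i - rj hm j' i := by
            refine Dvd.dvd.trans ?_ (hr3 j' i)
            rw [hpe]
            exact dvd_pow_self _ (by have := he j'; omega)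
          have h7 := dvd_sub (dvd_sub hi h5) h6
          have h8 : x k i - (x k i - r i) - (r i - rj hm j' i) = rj hm j' i := by ring
          rwa [h8] at h7
        by_cases hi : i = j'
        · have hj : j ≠ j' := fun h => hij (hi.trans h.symm)
          exact rj_ne hm hj (by omega) (h4 j h2)
        · exact rj_ne hm hi (by omega) (h4 i h1)
      · push Not at hpb
        have hg : good p := by
          simp only [hgood]
          rw [hw]
          intro h3
          have hpZ : Prime (p : ℤ) := Nat.prime_iff_prime_int.1 hp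
          rcases hpZ.dvd_or_dvd h3 with h4 | h4
          · exact hfac p hp hpP h4
          · rw [Prime.dvd_finsetProd_iff hpZ] at h4
            obtain ⟨j', -, h5⟩ := h4
            exact hpb j' (by exact_mod_cast h5)
        apply hkB
        rw [hBad, mem_union, mem_biUnion]
        left
        refine ⟨(i, j), ?_, ?_⟩
        · rw [hPR, mem_filter]
          exact ⟨mem_univ _, hij⟩
        · simp only [hS]
          rw [mem_union, mem_filter, mem_filter]
          rcases lt_or_ge K p with h3 | h3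
          · left
            exact ⟨hk, p, hp, h3, hg, h1, h2⟩
          · right
            exact ⟨hk, p, hp, hpP, h3, hg, h1, h2⟩
  · intro I hI1 hI2 h0
    apply hkB
    rw [hBad, mem_union, mem_biUnion, mem_biUnion]
    right
    refine ⟨I, ?_, ?_⟩
    · rw [hSS, mem_filter]
      exact ⟨mem_univ _, hI1, hI2⟩
    · simp only [hT]
      rw [mem_filter]
      exact ⟨hk, h0⟩

end Pool.Agent.H34x.NT
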