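import Mathlib

/-!
# Counting parameters with a common prime divisor of two affine forms
-/

set_option autoImplicit false

namespace Pool.Agent.H34x.NT

open Finset

/-- the box of parameters -/
def Om (m K : ℕ) : Finset (Fin m → ℕ) := Fintype.piFinset fun _ => range K

theorem mem_Om {m K : ℕ} {k : Fin m → ℕ} : k ∈ Om m K ↔ ∀ l, k l < K := by
  simp [Om]

theorem card_Om (m K : ℕ) : (Om m K).card = K ^ m := by
  simp [Om]

open scoped Classical in
theorem card_fib {m K : ℕ} (hK : 0 < K) (S : Finset (Fin m → ℕ)) (hS : S ⊆ Om m K)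
    (J : Finset (Fin m)) (T : ℕ)
    (h : ∀ b : Fin m → ℕ, (S.filter fun k => ∀ l, l ∉ J → k l = b l).card ≤ T) :
    S.card ≤ T * K ^ (m - J.card) := by
  set t : Finset (Fin m → ℕ) := Fintype.piFinset fun l => if l ∈ J then {0} else range K with ht
  have hcard : t.card = K ^ (m - J.card) := by
    rw [ht, Fintype.card_piFinset]
    have h1 : ∀ l, (if l ∈ J then ({0} : Finset ℕ) else range K).card = if l ∈ J then 1 else K := by
      intro l
      split_ifs <;> simp
    simp only [h1]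
    rw [Finset.prod_ite, Finset.prod_const_one, one_mul, Finset.prod_const]
    congr 1
    have h2 : (univ.filter fun l => l ∉ J) = univ \ J := by
      ext l; simp
    rw [h2, Finset.card_sdiff_of_subset (subset_univ J), Finset.card_univ, Fintype.card_fin]
  rw [← hcard, mul_comm, ← smul_eq_mul]
  have := Finset.card_le_mul_card_image_of_maps_to (s := S) (t := t)
    (f := fun k l => if l ∈ J then 0 else k l) (by
      intro k hk
      rw [ht, Fintype.mem_piFinset]
      intro l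
      split_ifs with hl
      · simp
      · rw [mem_range]
        exact mem_Om.1 (hS hk) l) T (by
      intro b hb
      refine le_trans (Finset.card_le_card ?_) (h b)
      intro k hk
      rw [mem_filter] at hk ⊢
      refine ⟨hk.1, fun l hl => ?_⟩
      have h1 := congrFun hk.2 l
      simp only [if_neg hl] at h1
      exact h1)
  rw [smul_eq_mul, mul_comm]
  exact this

theorem eq_of_div_eq {p x y : ℕ} (h1 : (p : ℤ) ∣ (x : ℤ) - y) (h2 : x / p = y / p) : x = y := by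
  have h3 : (x : ℤ) % p = y % p := (Int.modEq_iff_dvd.2 h1).symm
  have h4 : x % p = y % p := by exact_mod_cast h3
  rw [← Nat.div_add_mod x p, ← Nat.div_add_mod y p, h2, h4]

open scoped Classical in
theorem two_mod {m K p : ℕ} (hK : 0 < K) (hp : p.Prime) (A B : Fin m → ℤ) (α β : ℤ) {i j : Fin m}
    (hdet : ¬ (p : ℤ) ∣ A i * B j - A j * B i) :
    ((Om m K).filter fun k => (p : ℤ) ∣ α + ∑ l, (k l : ℤ) * A l ∧
      (p : ℤ) ∣ β + ∑ l, (k l : ℤ) * B l).card ≤ (K / p + 1) ^ 2 * K ^ (m - 2) := by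
  have hij : i ≠ j := by
    rintro rfl
    apply hdet
    rw [sub_self]
    exact dvd_zero _
  have hJ : ({i, j} : Finset (Fin m)).card = 2 := Finset.card_pair hij
  rw [← hJ]
  have hpZ : Prime (p : ℤ) := Nat.prime_iff_prime_int.1 hp
  apply card_fib hK _ (filter_subset _ _)
  intro b
  have hcard : ((range (K / p + 1)) ×ˢ (range (K / p + 1))).card = (K / p + 1) ^ ({i, j} : Finset (Fin m)).card := by
    rw [Finset.card_product, Finset.card_range, hJ, sq]
  rw [← hcard]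
  apply Finset.card_le_card_of_injOn (fun k => (k i / p, k j / p))
  · intro k hk
    rw [mem_coe, mem_filter, mem_filter, mem_Om] at hk
    simp only [coe_product, Set.mem_prod, mem_coe, mem_range]
    constructor
    · have := Nat.div_le_div_right (c := p) (hk.1.1 i).le
      omega
    · have := Nat.div_le_div_right (c := p) (hk.1.1 j).le
      omega
  · intro k hk k' hk' heq
    rw [mem_coe, mem_filter, mem_filter, mem_Om] at hk hk'
    obtain ⟨⟨-, h1, h2⟩, h3⟩ := hk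
    obtain ⟨⟨-, h1', h2'⟩, h3'⟩ := hk'
    simp only [Prod.mk.injEq] at heq
    have hdiff : ∀ (F : Fin m → ℤ), ∑ l, (k l : ℤ) * F l - ∑ l, (k' l : ℤ) * F l =
        ((k i : ℤ) - k' i) * F i + ((k j : ℤ) - k' j) * F j := by
      intro F
      rw [← Finset.sum_sub_distrib]
      have h5 : ∀ l, (k l : ℤ) * F l - (k' l : ℤ) * F l = ((k l : ℤ) - k' l) * F l := fun l => by
        ring
      simp only [h5]
      rw [← Finset.sum_subset (subset_univ ({i, j} : Finset (Fin m)))]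
      · rw [Finset.sum_pair hij]
      · intro l _ hl
        rw [h3 l hl, h3' l hl]
        ring
    have e1 : (p : ℤ) ∣ ((k i : ℤ) - k' i) * A i + ((k j : ℤ) - k' j) * A j := by
      rw [← hdiff A]
      have := dvd_sub h1 h1'
      have h6 : α + ∑ l, (k l : ℤ) * A l - (α + ∑ l, (k' l : ℤ) * A l) =
          ∑ l, (k l : ℤ) * A l - ∑ l, (k' l : ℤ) * A l := by ring
      rwa [h6] at this
    have e2 : (p : ℤ) ∣ ((k i : ℤ) - k' i) * B i + ((k j : ℤ) - k' j) * B j := by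
      rw [← hdiff B]
      have := dvd_sub h2 h2'
      have h6 : β + ∑ l, (k l : ℤ) * B l - (β + ∑ l, (k' l : ℤ) * B l) =
          ∑ l, (k l : ℤ) * B l - ∑ l, (k' l : ℤ) * B l := by ring
      rwa [h6] at this
    have e3 : (p : ℤ) ∣ (k i : ℤ) - k' i := by
      have h6 : (p : ℤ) ∣ ((k i : ℤ) - k' i) * (A i * B j - A j * B i) := by
        have h7 := dvd_sub (e1.mul_left (B j)) (e2.mul_left (A j))
        have h8 : B j * (((k i : ℤ) - k' i) * A i + ((k j : ℤ) - k' j) * A j) -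
            A j * (((k i : ℤ) - k' i) * B i + ((k j : ℤ) - k' j) * B j) =
            ((k i : ℤ) - k' i) * (A i * B j - A j * B i) := by ring
        rwa [h8] at h7
      exact (hpZ.dvd_or_dvd h6).resolve_right hdet
    have e4 : (p : ℤ) ∣ (k j : ℤ) - k' j := by
      have h6 : (p : ℤ) ∣ ((k j : ℤ) - k' j) * (A i * B j - A j * B i) := by
        have h7 := dvd_sub (e2.mul_left (A i)) (e1.mul_left (B i))
        have h8 : A i * (((k i : ℤ) - k' i) * B i + ((k j : ℤ) - k' j) * B j) -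
            B i * (((k i : ℤ) - k' i) * A i + ((k j : ℤ) - k' j) * A j) =
            ((k j : ℤ) - k' j) * (A i * B j - A j * B i) := by ring
        rwa [h8] at h7
      exact (hpZ.dvd_or_dvd h6).resolve_right hdet
    have e5 := eq_of_div_eq e3 heq.1
    have e6 := eq_of_div_eq e4 heq.2
    funext l
    by_cases hl : l ∈ ({i, j} : Finset (Fin m))
    · rw [mem_insert, mem_singleton] at hl
      rcases hl with rfl | rfl
      · exact e5
      · exact e6
    · rw [h3 l hl, h3' l hl]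

open scoped Classical in
theorem fib_diff {m : ℕ} {j : Fin m} {k k' b : Fin m → ℕ} (h3 : ∀ l, l ∉ ({j} : Finset (Fin m)) → k l = b l)
    (h3' : ∀ l, l ∉ ({j} : Finset (Fin m)) → k' l = b l) (F : Fin m → ℤ) :
    ∑ l, (k l : ℤ) * F l - ∑ l, (k' l : ℤ) * F l = ((k j : ℤ) - k' j) * F j := by
  rw [← Finset.sum_sub_distrib, Finset.sum_eq_single j]
  · ring
  · intro l _ hl
    have : l ∉ ({j} : Finset (Fin m)) := by simpa using hl
    rw [h3 l this, h3' l this]
    ring
  · intro h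
    exact absurd (mem_univ _) h

open scoped Classical in
theorem fib_ext {m : ℕ} {j : Fin m} {k k' b : Fin m → ℕ} (h3 : ∀ l, l ∉ ({j} : Finset (Fin m)) → k l = b l)
    (h3' : ∀ l, l ∉ ({j} : Finset (Fin m)) → k' l = b l) (h : k j = k' j) : k = k' := by
  funext l
  by_cases hl : l = j
  · rw [hl]; exact h
  · have : l ∉ ({j} : Finset (Fin m)) := by simpa using hl
    rw [h3 l this, h3' l this]

open scoped Classical in
theorem one_zero {m K : ℕ} (hK : 0 < K) (A : Fin m → ℤ) (α : ℤ) {j : Fin m} (hA : A j ≠ 0) :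
    ((Om m K).filter fun k => α + ∑ l, (k l : ℤ) * A l = 0).card ≤ K ^ (m - 1) := by
  have h0 := card_fib hK ((Om m K).filter fun k => α + ∑ l, (k l : ℤ) * A l = 0)
    (filter_subset _ _) {j} 1 (by
      intro b
      rw [Finset.card_le_one]
      intro k hk k' hk'
      rw [mem_filter, mem_filter] at hk hk'
      apply fib_ext hk.2 hk'.2
      have h1 := fib_diff hk.2 hk'.2 A
      have h2 : ((k j : ℤ) - k' j) * A j = 0 := by
        rw [← h1]
        linarith [hk.1.2, hk'.1.2]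
      rcases mul_eq_zero.1 h2 with h3 | h3
      · have : (k j : ℤ) = k' j := by linarith
        exact_mod_cast this
      · exact absurd h3 hA)
  rw [Finset.card_singleton, one_mul] at h0
  exact h0

theorem card_large {n X K ω : ℕ} (hn : n ≠ 0) (hX : n ≤ X) (hω : X < K ^ (ω + 1)) (hK : 0 < K) :
    (n.primeFactors.filter fun p => K < p).card ≤ ω := by
  by_contra hcon
  push Not at hcon
  have h1 : K ^ (n.primeFactors.filter fun p => K < p).card ≤
      ∏ p ∈ n.primeFactors.filter (fun p => K < p), p := by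
    rw [← Finset.prod_const]
    exact Finset.prod_le_prod' fun p hp => (mem_filter.1 hp).2.le
  have h2 : ∏ p ∈ n.primeFactors.filter (fun p => K < p), p ≤ n := by
    apply Nat.le_of_dvd (Nat.pos_of_ne_zero hn)
    exact (Finset.prod_dvd_prod_of_subset _ _ _ (filter_subset _ _)).trans
      (Nat.prod_primeFactors_dvd n)
  have h3 : K ^ (ω + 1) ≤ K ^ (n.primeFactors.filter fun p => K < p).card :=
    Nat.pow_le_pow_right hK hcon
  omega

open scoped Classical in
/-- the parameters for which a large prime divides both forms -/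
theorem big_primes {m K X ω : ℕ} (hm : 2 ≤ m) (hK : 0 < K) (hω : X < K ^ (ω + 1))
    (A B : Fin m → ℤ) (α β : ℤ) {i0 j0 : Fin m} (hA : A j0 ≠ 0)
    (hAB : A j0 * B i0 - B j0 * A i0 ≠ 0) (good : ℕ → Prop)
    (hgood : ∀ p, p.Prime → good p → ∃ i j, ¬ (p : ℤ) ∣ A i * B j - A j * B i)
    (hAX : (A j0).natAbs ≤ X)
    (hX : ∀ k ∈ Om m K, (A j0 * (β + ∑ l, (k l : ℤ) * B l) -
      B j0 * (α + ∑ l, (k l : ℤ) * A l)).natAbs ≤ X) :
    ((Om m K).filter fun k => ∃ p : ℕ, p.Prime ∧ K < p ∧ good p ∧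
      (p : ℤ) ∣ α + ∑ l, (k l : ℤ) * A l ∧ (p : ℤ) ∣ β + ∑ l, (k l : ℤ) * B l).card ≤
      (1 + 2 * ω) * K ^ (m - 1) := by
  set δ : (Fin m → ℕ) → ℤ := fun k => A j0 * (β + ∑ l, (k l : ℤ) * B l) -
      B j0 * (α + ∑ l, (k l : ℤ) * A l) with hδ
  have hδe : ∀ k, δ k = (A j0 * β - B j0 * α) +
      ∑ l, (k l : ℤ) * (A j0 * B l - B j0 * A l) := by
    intro k
    simp only [hδ]
    have h1 : ∑ l, (k l : ℤ) * (A j0 * B l - B j0 * A l) =
        A j0 * ∑ l, (k l : ℤ) * B l - B j0 * ∑ l, (k l : ℤ) * A l := by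
      rw [Finset.mul_sum, Finset.mul_sum, ← Finset.sum_sub_distrib]
      refine Finset.sum_congr rfl fun l _ => by ring
    rw [h1]
    ring
  set S0 := (Om m K).filter fun k => δ k = 0 with hS0
  set S1 := (Om m K).filter fun k => δ k ≠ 0 ∧ ∃ p : ℕ, p.Prime ∧ K < p ∧ ¬ (p : ℤ) ∣ A j0 ∧
      (p : ℤ) ∣ δ k ∧ (p : ℤ) ∣ α + ∑ l, (k l : ℤ) * A l with hS1
  set S2 := ((A j0).natAbs.primeFactors.filter fun p => K < p ∧ good p).biUnion fun p =>
      (Om m K).filter fun k => (p : ℤ) ∣ α + ∑ l, (k l : ℤ) * A l ∧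
        (p : ℤ) ∣ β + ∑ l, (k l : ℤ) * B l with hS2
  have hsub : ((Om m K).filter fun k => ∃ p : ℕ, p.Prime ∧ K < p ∧ good p ∧
      (p : ℤ) ∣ α + ∑ l, (k l : ℤ) * A l ∧ (p : ℤ) ∣ β + ∑ l, (k l : ℤ) * B l) ⊆
      S0 ∪ S1 ∪ S2 := by
    intro k hk
    rw [mem_filter] at hk
    obtain ⟨hk0, p, hp, hKp, hg, h1, h2⟩ := hk
    rw [mem_union, mem_union]
    by_cases h3 : δ k = 0
    · left; left
      rw [hS0, mem_filter]
      exact ⟨hk0, h3⟩
    · by_cases h4 : (p : ℤ) ∣ A j0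
      · right
        rw [hS2, mem_biUnion]
        refine ⟨p, ?_, ?_⟩
        · rw [mem_filter, Nat.mem_primeFactors]
          exact ⟨⟨hp, Int.natCast_dvd.1 h4, Int.natAbs_ne_zero.2 hA⟩, hKp, hg⟩
        · rw [mem_filter]
          exact ⟨hk0, h1, h2⟩
      · left; right
        rw [hS1, mem_filter]
        refine ⟨hk0, h3, p, hp, hKp, h4, ?_, h1⟩
        simp only [hδ]
        exact dvd_sub (h2.mul_left _) (h1.mul_left _)
  have c0 : S0.card ≤ K ^ (m - 1) := by
    rw [hS0]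
    simp only [hδe]
    exact one_zero hK (fun l => A j0 * B l - B j0 * A l) _ hAB
  have hcoef : A j0 * B j0 - B j0 * A j0 = 0 := by ring
  have c1 : S1.card ≤ ω * K ^ (m - 1) := by
    have h0 := card_fib hK S1 (filter_subset _ _) {j0} ω (by
      intro b
      rcases (S1.filter fun k => ∀ l, l ∉ ({j0} : Finset (Fin m)) → k l = b l).eq_empty_or_nonempty
        with he | ⟨κ, hκ⟩
      · rw [he]; simp
      rw [mem_filter, hS1, mem_filter] at hκ
      obtain ⟨⟨hκ0, hκ1, -⟩, hκ2⟩ := hκ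
      have hconst : ∀ k : Fin m → ℕ, (∀ l, l ∉ ({j0} : Finset (Fin m)) → k l = b l) →
          δ k = δ κ := by
        intro k hk
        have h1 := fib_diff hk hκ2 (fun l => A j0 * B l - B j0 * A l)
        rw [hcoef, mul_zero] at h1
        rw [hδe, hδe]
        linarith
      have hle := card_large (Int.natAbs_ne_zero.2 hκ1) (hX κ hκ0) hω hK
      refine le_trans ?_ hle
      have hex : ∀ k ∈ S1.filter (fun k => ∀ l, l ∉ ({j0} : Finset (Fin m)) → k l = b l),
          ∃ p : ℕ, p ∈ (δ κ).natAbs.primeFactors.filter (fun p => K < p) ∧ ¬ (p : ℤ) ∣ A j0 ∧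
            (p : ℤ) ∣ α + ∑ l, (k l : ℤ) * A l := by
        intro k hk
        rw [mem_filter, hS1, mem_filter] at hk
        obtain ⟨⟨_, _, p, hp, hKp, h4, h5, h6⟩, h7⟩ := hk
        rw [hconst k h7] at h5
        refine ⟨p, ?_, h4, h6⟩
        rw [mem_filter, Nat.mem_primeFactors]
        exact ⟨⟨hp, Int.natCast_dvd.1 h5, Int.natAbs_ne_zero.2 hκ1⟩, hKp⟩
      choose! P hP using hex
      apply Finset.card_le_card_of_injOn P
      · intro k hk
        exact (hP k hk).1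
      · intro k hk k' hk' heq
        obtain ⟨q1, q2, q3⟩ := hP k hk
        obtain ⟨_, _, q3'⟩ := hP k' hk'
        rw [← heq] at q3'
        rw [mem_coe, mem_filter, hS1, mem_filter, mem_Om] at hk hk'
        rw [mem_filter, Nat.mem_primeFactors] at q1
        have hpZ : Prime ((P k : ℕ) : ℤ) := Nat.prime_iff_prime_int.1 q1.1.1
        apply fib_ext hk.2 hk'.2
        have h1 := fib_diff hk.2 hk'.2 A
        have h2 : ((P k : ℕ) : ℤ) ∣ ((k j0 : ℤ) - k' j0) * A j0 := by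
          rw [← h1]
          have h3 := dvd_sub q3 q3'
          have h4 : α + ∑ l, (k l : ℤ) * A l - (α + ∑ l, (k' l : ℤ) * A l) =
            ∑ l, (k l : ℤ) * A l - ∑ l, (k' l : ℤ) * A l := by ring
          rwa [h4] at h3
        have h3 := (hpZ.dvd_or_dvd h2).resolve_right q2
        have h4 := hk.1.1 j0
        have h5 := hk'.1.1 j0
        apply eq_of_div_eq h3
        rw [Nat.div_eq_of_lt (by omega), Nat.div_eq_of_lt (by omega)])
    rw [Finset.card_singleton] at h0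
    exact h0
  have c2 : S2.card ≤ ω * K ^ (m - 1) := by
    refine Finset.card_biUnion_le.trans ?_
    have h1 : ∀ p ∈ (A j0).natAbs.primeFactors.filter (fun p => K < p ∧ good p),
        ((Om m K).filter fun k => (p : ℤ) ∣ α + ∑ l, (k l : ℤ) * A l ∧
        (p : ℤ) ∣ β + ∑ l, (k l : ℤ) * B l).card ≤ K ^ (m - 1) := by
      intro p hp
      rw [mem_filter, Nat.mem_primeFactors] at hp
      obtain ⟨⟨hp1, -, -⟩, hKp, hg⟩ := hp
      obtain ⟨i, j, hij⟩ := hgood p hp1 hg
      refine (two_mod hK hp1 A B α β hij).trans ?_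
      rw [Nat.div_eq_of_lt hKp, zero_add, one_pow, one_mul]
      exact Nat.pow_le_pow_right hK (by omega)
    refine (Finset.sum_le_card_nsmul _ _ _ h1).trans ?_
    rw [smul_eq_mul]
    apply Nat.mul_le_mul_right
    refine le_trans (Finset.card_le_card ?_) (card_large (Int.natAbs_ne_zero.2 hA) hAX hω hK)
    intro p hp
    rw [mem_filter] at hp ⊢
    exact ⟨hp.1, hp.2.1⟩
  calc _ ≤ (S0 ∪ S1 ∪ S2).card := Finset.card_le_card hsub
    _ ≤ S0.card + S1.card + S2.card := by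
        refine (Finset.card_union_le _ _).trans ?_
        have := Finset.card_union_le S0 S1
        omega
    _ ≤ K ^ (m - 1) + ω * K ^ (m - 1) + ω * K ^ (m - 1) := by omega
    _ = (1 + 2 * ω) * K ^ (m - 1) := by ring

open scoped Classical in
/-- the parameters for which a prime between `P0` and `K` divides both forms -/
theorem small_primes {m K P0 : ℕ} (hm : 2 ≤ m) (hK : 0 < K) (hP0 : 0 < P0)
    (A B : Fin m → ℤ) (α β : ℤ) (good : ℕ → Prop)
    (hgood : ∀ p, p.Prime → good p → ∃ i j, ¬ (p : ℤ) ∣ A i * B j - A j * B i) :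
    (((Om m K).filter fun k => ∃ p : ℕ, p.Prime ∧ P0 < p ∧ p ≤ K ∧ good p ∧
      (p : ℤ) ∣ α + ∑ l, (k l : ℤ) * A l ∧ (p : ℤ) ∣ β + ∑ l, (k l : ℤ) * B l).card : ℝ) ≤
      4 / P0 * (K : ℝ) ^ m := by
  set S : Finset ℕ := (Ioc P0 K).filter fun p => p.Prime ∧ good p with hS
  have hsub : ((Om m K).filter fun k => ∃ p : ℕ, p.Prime ∧ P0 < p ∧ p ≤ K ∧ good p ∧
      (p : ℤ) ∣ α + ∑ l, (k l : ℤ) * A l ∧ (p : ℤ) ∣ β + ∑ l, (k l : ℤ) * B l) ⊆
      S.biUnion fun p => (Om m K).filter fun k => (p : ℤ) ∣ α + ∑ l, (k l : ℤ) * A l ∧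
        (p : ℤ) ∣ β + ∑ l, (k l : ℤ) * B l := by
    intro k hk
    rw [mem_filter] at hk
    obtain ⟨hk0, p, hp, h1, h2, hg, h3, h4⟩ := hk
    rw [mem_biUnion]
    refine ⟨p, ?_, ?_⟩
    · rw [hS, mem_filter, mem_Ioc]
      exact ⟨⟨h1, h2⟩, hp, hg⟩
    · rw [mem_filter]
      exact ⟨hk0, h3, h4⟩
  have hK0 : (0 : ℝ) < K := by exact_mod_cast hK
  have hP00 : (0 : ℝ) < P0 := by exact_mod_cast hP0
  have h1 : ∀ p ∈ S, (((Om m K).filter fun k => (p : ℤ) ∣ α + ∑ l, (k l : ℤ) * A l ∧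
        (p : ℤ) ∣ β + ∑ l, (k l : ℤ) * B l).card : ℝ) ≤ 4 * (K : ℝ) ^ m * (((p : ℝ) ^ 2)⁻¹) := by
    intro p hp
    rw [hS, mem_filter, mem_Ioc] at hp
    obtain ⟨⟨hp1, hp2⟩, hp3, hg⟩ := hp
    obtain ⟨i, j, hij⟩ := hgood p hp3 hg
    have h2 := two_mod hK hp3 A B α β hij
    have hp0 : (0 : ℝ) < p := by exact_mod_cast hp3.pos
    have h3 : ((K / p + 1 : ℕ) : ℝ) ≤ 2 * (K : ℝ) / p := by
      have h4 : ((K / p : ℕ) : ℝ) ≤ (K : ℝ) / p := Nat.cast_div_le
      have h5 : (1 : ℝ) ≤ (K : ℝ) / p := by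
        rw [le_div_iff₀ hp0, one_mul]
        exact_mod_cast hp2
      push_cast
      rw [show 2 * (K : ℝ) / p = (K : ℝ) / p + (K : ℝ) / p by ring]
      linarith
    calc _ ≤ (((K / p + 1) ^ 2 * K ^ (m - 2) : ℕ) : ℝ) := by exact_mod_cast h2
      _ = ((K / p + 1 : ℕ) : ℝ) ^ 2 * (K : ℝ) ^ (m - 2) := by push_cast; ring
      _ ≤ (2 * (K : ℝ) / p) ^ 2 * (K : ℝ) ^ (m - 2) := by gcongr
      _ = 4 * (K : ℝ) ^ m * (((p : ℝ) ^ 2)⁻¹) := by
          have h6 : (K : ℝ) ^ m = (K : ℝ) ^ 2 * (K : ℝ) ^ (m - 2) := by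
            rw [← pow_add]
            congr 1
            omega
          rw [h6]
          field_simp
          ring
  have h2 : ∑ p ∈ S, (((p : ℝ) ^ 2)⁻¹) ≤ 1 / P0 := by
    have h3 : ∑ p ∈ S, (((p : ℝ) ^ 2)⁻¹) ≤ ∑ p ∈ Ioc P0 K, (((p : ℝ) ^ 2)⁻¹) :=
      Finset.sum_le_sum_of_subset_of_nonneg (filter_subset _ _) fun _ _ _ => by positivity
    refine h3.trans ?_
    rcases le_or_gt P0 K with h4 | h4
    · have h5 := sum_Ioc_inv_sq_le_sub (α := ℝ) hP0.ne' h4
      refine h5.trans ?_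
      rw [one_div]
      have : (0 : ℝ) ≤ (K : ℝ)⁻¹ := by positivity
      linarith
    · rw [Finset.Ioc_eq_empty (by omega)]
      simp
  calc (((Om m K).filter fun k => ∃ p : ℕ, p.Prime ∧ P0 < p ∧ p ≤ K ∧ good p ∧
      (p : ℤ) ∣ α + ∑ l, (k l : ℤ) * A l ∧ (p : ℤ) ∣ β + ∑ l, (k l : ℤ) * B l).card : ℝ)
      ≤ ((S.biUnion fun p => (Om m K).filter fun k => (p : ℤ) ∣ α + ∑ l, (k l : ℤ) * A l ∧
        (p : ℤ) ∣ β + ∑ l, (k l : ℤ) * B l).card : ℝ) := by
        exact_mod_cast Finset.card_le_card hsub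
    _ ≤ ∑ p ∈ S, (((Om m K).filter fun k => (p : ℤ) ∣ α + ∑ l, (k l : ℤ) * A l ∧
        (p : ℤ) ∣ β + ∑ l, (k l : ℤ) * B l).card : ℝ) := by
        exact_mod_cast Finset.card_biUnion_le
    _ ≤ ∑ p ∈ S, 4 * (K : ℝ) ^ m * (((p : ℝ) ^ 2)⁻¹) := Finset.sum_le_sum h1
    _ = 4 * (K : ℝ) ^ m * ∑ p ∈ S, (((p : ℝ) ^ 2)⁻¹) := by rw [Finset.mul_sum]
    _ ≤ 4 * (K : ℝ) ^ m * (1 / P0) := mul_le_mul_of_nonneg_left h2 (by positivity)
    _ = 4 / P0 * (K : ℝ) ^ m := by ring

end Pool.Agent.H34x.NT
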