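import Pool.Agent.H34x.NT.Main
import Pool.Agent.H34x.MA.Dim

/-!
# Tuples with prescribed radicals: boxes and directions
-/

set_option autoImplicit false

namespace Pool.Agent.H34x.NT

open Finset Filter
open Pool.Agent.H785R2.ABC (rad)
open Pool.Agent.H34x.MA (rad_le_of_pow_dvd card_rad)

/-- a zero sum vector with pairwise coprime coordinates and without vanishing subsums -/
def Adm {n : ℕ} (x : Fin n → ℤ) : Prop :=
  ∑ i, x i = 0 ∧ (∀ i j, i ≠ j → IsCoprime (x i) (x j)) ∧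
    ∀ I : Finset (Fin n), I.Nonempty → I ≠ univ → ∑ i ∈ I, x i ≠ 0

/-- the box property -/
def NearT {n : ℕ} (α : Fin n → ℝ) (τ T : ℝ) : Prop :=
  ∀ y : Fin n → ℝ, ∑ i, y i = 0 → (∀ i, |y i| ≤ T) →
    ∃ x : Fin n → ℤ, Adm x ∧ (∀ i, |(x i : ℝ) - y i| ≤ T ^ (1 - τ)) ∧
      ∀ i, (rad (x i).natAbs : ℝ) ≤ T ^ (α i) / 2

theorem rad_small {b e : ℕ} (hb : b.Prime) {z : ℤ} (hz : z ≠ 0) (hd : (b : ℤ) ^ e ∣ z) {T a : ℝ}
    (hT : 0 < T) (h1 : 4 * b * T ^ a ≤ (b : ℝ) ^ e) (h2 : |(z : ℝ)| ≤ 2 * T) :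
    (rad z.natAbs : ℝ) ≤ T ^ (1 - a) / 2 := by
  have h3 : b ^ e ∣ z.natAbs := by
    have := Int.natAbs_dvd_natAbs.2 hd
    rwa [Int.natAbs_pow, Int.natAbs_natCast] at this
  have h4 := rad_le_of_pow_dvd hb (Int.natAbs_pos.2 hz) h3
  have h5 : (rad z.natAbs : ℝ) * (b : ℝ) ^ e ≤ b * |(z : ℝ)| := by
    have h6 : ((z.natAbs : ℕ) : ℝ) = |(z : ℝ)| := Nat.cast_natAbs z |>.trans (by push_cast; rfl)
    rw [← h6]
    exact_mod_cast h4
  have hb0 : (0 : ℝ) < b := by exact_mod_cast hb.pos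
  have hTa := Real.rpow_pos_of_pos hT a
  have h7 : (rad z.natAbs : ℝ) * (4 * b * T ^ a) ≤ b * (2 * T) :=
    (mul_le_mul_of_nonneg_left h1 (Nat.cast_nonneg _)).trans
      (h5.trans (mul_le_mul_of_nonneg_left h2 hb0.le))
  have h8 : T ^ (1 - a) * T ^ a = T := by
    rw [← Real.rpow_add hT]
    simp
  have h9 : (rad z.natAbs : ℝ) * (4 * b * T ^ a) ≤ (T ^ (1 - a) / 2) * (4 * b * T ^ a) := by
    have h10 : (T ^ (1 - a) / 2) * (4 * b * T ^ a) = 2 * b * (T ^ (1 - a) * T ^ a) := by ring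
    rw [h10, h8]
    linarith
  exact le_of_mul_le_mul_right h9 (by positivity)

theorem near_pos {m : ℕ} (hm : 2 ≤ m) (α : Fin (m + 1) → ℝ) (h1 : ∀ i, α i ≤ 1) {τ τ2 : ℝ}
    (hτ0 : 0 < τ) (hτ : τ < τ2) (hτ2 : τ2 < 1) (hτα : ∀ i, τ2 < α i)
    (hs : 1 + m * τ2 ≤ ∑ i, α i) : ∀ᶠ T : ℝ in atTop, NearT α τ T := by
  obtain ⟨α', ha1, ha2, ha3⟩ := alpha_red α hτ2 hτα hs
  obtain ⟨b, -, hbp, hev⟩ := points hm (fun i => 1 - α' i) hτ0 hτ hτ2
    (fun i => by have := ha2 i; have := h1 i; linarith)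
    (fun i => by have := ha1 i; linarith)
    (by
      rw [Finset.sum_sub_distrib, ha3]
      simp
      ring)
  filter_upwards [hev, eventually_ge_atTop 1] with T hT hT1 y hy hyT
  have hT0 : 0 < T := by linarith
  obtain ⟨x, e, hx1, hx2, hx3, hx4, hx5, hx6⟩ := hT y hy hyT
  have hx0 : ∀ i, x i ≠ 0 := by
    intro i h0
    refine hx5 {i} (by simp) ?_ (by simpa using h0)
    intro h
    have := congrArg Finset.card h
    simp at this
    omega
  refine ⟨x, ⟨hx1, hx4, hx5⟩, hx6, fun i => ?_⟩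
  have h2 : |(x i : ℝ)| ≤ 2 * T := by
    have h3 : T ^ (1 - τ) ≤ T := by
      have := Real.rpow_le_rpow_of_exponent_le hT1 (show 1 - τ ≤ 1 by linarith)
      rwa [Real.rpow_one] at this
    have h4 := abs_sub_abs_le_abs_sub (x i : ℝ) (y i)
    have := hx6 i
    have := hyT i
    linarith
  have h5 := rad_small (hbp i) (hx0 i) (hx2 i) hT0 (hx3 i) h2
  refine h5.trans ?_
  have h6 : T ^ (1 - (1 - α' i)) ≤ T ^ (α i) := by
    apply Real.rpow_le_rpow_of_exponent_le hT1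
    have := ha2 i
    linarith
  linarith

/-- **Boxes.** -/
theorem near {m : ℕ} (hm : 2 ≤ m) (α : Fin (m + 1) → ℝ) (h0 : ∀ i, 0 < α i) (h1 : ∀ i, α i ≤ 1)
    (hs : 1 < ∑ i, α i) {τ : ℝ} (hτα : ∀ i, τ < α i) (hτs : m * τ < ∑ i, α i - 1) :
    ∀ᶠ T : ℝ in atTop, NearT α τ T := by
  have hmR : (0 : ℝ) < m := by exact_mod_cast (by omega : 0 < m)
  set S : ℝ := (∑ i, α i - 1) / m with hS
  have hS0 : 0 < S := div_pos (by linarith) hmR
  have hτS : τ < S := by rw [hS, lt_div_iff₀ hmR]; linarith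
  have hS1 : S ≤ 1 := by
    rw [hS, div_le_one hmR]
    have h2 : ∑ i, α i ≤ ∑ _i : Fin (m + 1), (1 : ℝ) := Finset.sum_le_sum fun i _ => h1 i
    simp at h2
    linarith
  obtain ⟨i0, -, hi0⟩ := Finset.exists_min_image (univ : Finset (Fin (m + 1))) α univ_nonempty
  set M : ℝ := min S (α i0) with hM
  have hM0 : max τ 0 < M := by
    rw [hM]
    exact max_lt (lt_min hτS (hτα i0)) (lt_min hS0 (h0 i0))
  obtain ⟨τ2, hτ21, hτ22⟩ := exists_between hM0
  obtain ⟨τ1, hτ11, hτ12⟩ := exists_between hτ21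
  have hτ1τ : τ < τ1 := (le_max_left _ _).trans_lt hτ11
  have hτ10 : 0 < τ1 := (le_max_right _ _).trans_lt hτ11
  have hMS : M ≤ S := min_le_left _ _
  have h2 := near_pos hm α h1 hτ10 hτ12 (by linarith) (fun i => by
      have : M ≤ α i := (min_le_right _ _).trans (hi0 i (mem_univ _))
      linarith) (by
      have h3 : τ2 < S := by linarith
      rw [hS, lt_div_iff₀ hmR] at h3
      linarith)
  filter_upwards [h2, eventually_ge_atTop 1] with T hT hT1 y hy hyT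
  obtain ⟨x, hx1, hx2, hx3⟩ := hT y hy hyT
  exact ⟨x, hx1, fun i => (hx2 i).trans
    (Real.rpow_le_rpow_of_exponent_le hT1 (by linarith)), hx3⟩

/-- **No smaller boxes.** -/
theorem sharp {n : ℕ} (hn : 2 ≤ n) (i : Fin n) {α τ : ℝ} (hτ : α < τ) (hα : 0 < α) :
    ∀ᶠ T : ℝ in atTop, ∃ y : Fin n → ℝ, ∑ j, y j = 0 ∧ (∀ j, |y j| ≤ T) ∧
      ∀ x : ℤ, x ≠ 0 → (rad x.natAbs : ℝ) ≤ T ^ α → T ^ (1 - τ) < |(x : ℝ) - y i| := by
  classical
  set η : ℝ := (τ - α) / 2 with hη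
  have hη0 : 0 < η := by rw [hη]; linarith
  obtain ⟨D, hD, hcard⟩ := card_rad hη0
  have e1 := ev_le (8 * D * 3 ^ (α + η)) (show α + η < τ by rw [hη]; linarith)
  filter_upwards [e1, eventually_ge_atTop 1] with T h1 hT1
  have hT0 : 0 < T := by linarith
  by_contra hcon
  push Not at hcon
  obtain ⟨i', hi'⟩ : ∃ i' : Fin n, i' ≠ i := by
    by_cases h : i = ⟨0, by omega⟩
    · exact ⟨⟨1, by omega⟩, by rw [h]; intro h'; have := congrArg Fin.val h'; simp at this⟩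
    · exact ⟨⟨0, by omega⟩, fun h' => h h'.symm⟩
  set r : ℝ := T ^ (1 - τ) with hr
  have hr0 : 0 < r := Real.rpow_pos_of_pos hT0 _
  have hrτ : r * T ^ τ = T := by
    rw [hr, ← Real.rpow_add hT0]
    simp
  set J : ℕ := ⌊T ^ τ / 4⌋₊ with hJ
  have hJ1 : (J : ℝ) ≤ T ^ τ / 4 := Nat.floor_le (by positivity)
  have hJ2 : T ^ τ / 4 < J + 1 := Nat.lt_floor_add_one _
  have hex : ∀ k : ℕ, k ∈ range (J + 1) → ∃ x : ℤ, x ≠ 0 ∧ (rad x.natAbs : ℝ) ≤ T ^ α ∧
      |(x : ℝ) - 4 * r * k| ≤ r := by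
    intro k hk
    have hkJ : (k : ℝ) ≤ J := by exact_mod_cast Nat.lt_succ_iff.1 (mem_range.1 hk)
    have hkT : 4 * r * k ≤ T := by
      have : 4 * r * k ≤ 4 * r * (T ^ τ / 4) :=
        mul_le_mul_of_nonneg_left (hkJ.trans hJ1) (by positivity)
      have h2 : 4 * r * (T ^ τ / 4) = r * T ^ τ := by ring
      rw [h2, hrτ] at this
      exact this
    have hk0 : (0 : ℝ) ≤ 4 * r * k := by positivity
    obtain ⟨x, hx1, hx2, hx3⟩ := hcon (fun j => (if j = i then 4 * r * k else 0) -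
      (if j = i' then 4 * r * k else 0)) (by
        rw [Finset.sum_sub_distrib]; simp) (by
        intro j
        split_ifs
        · simp; linarith
        · rw [sub_zero, abs_of_nonneg hk0]; exact hkT
        · rw [zero_sub, abs_neg, abs_of_nonneg hk0]; exact hkT
        · simp; linarith)
    refine ⟨x, hx1, hx2, ?_⟩
    simpa [hi'.symm] using hx3
  choose! f hf1 hf2 hf3 using hex
  have hinj : Set.InjOn f (range (J + 1)) := by
    intro k hk k' hk' hkk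
    by_contra hne
    have h2 := hf3 k hk
    have h3 := hf3 k' hk'
    rw [← hkk] at h3
    have h4 : |4 * r * (k : ℝ) - 4 * r * k'| ≤ 2 * r := by
      have : 4 * r * (k : ℝ) - 4 * r * k' = ((f k : ℝ) - 4 * r * k') - ((f k : ℝ) - 4 * r * k) := by
        ring
      rw [this]
      refine (abs_sub _ _).trans ?_
      linarith
    have h5 : 4 * r * (k : ℝ) - 4 * r * k' = 4 * r * (((k : ℤ) - k' : ℤ) : ℝ) := by
      push_cast; ring
    rw [h5, abs_mul, abs_of_pos (by positivity : 0 < 4 * r)] at h4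
    have h6 : (1 : ℝ) ≤ |(((k : ℤ) - k' : ℤ) : ℝ)| := by
      have : (1 : ℤ) ≤ |(k : ℤ) - k'| := Int.one_le_abs (by omega)
      exact_mod_cast this
    nlinarith
  -- count
  set E : Finset ℤ := (range (J + 1)).image f with hE
  have hEc : E.card = J + 1 := by
    rw [hE, Finset.card_image_of_injOn hinj, card_range]
  have hEn : E.card ≤ 2 * (E.image Int.natAbs).card := by
    have h2 : E ⊆ (E.image Int.natAbs).image (fun n : ℕ => (n : ℤ)) ∪
        (E.image Int.natAbs).image (fun n : ℕ => -(n : ℤ)) := by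
      intro z hz
      rw [mem_union, mem_image, mem_image]
      rcases Int.natAbs_eq z with h | h
      · exact Or.inl ⟨z.natAbs, mem_image_of_mem _ hz, h.symm⟩
      · exact Or.inr ⟨z.natAbs, mem_image_of_mem _ hz, h.symm⟩
    calc E.card ≤ _ := card_le_card h2
      _ ≤ _ := card_union_le _ _
      _ ≤ (E.image Int.natAbs).card + (E.image Int.natAbs).card :=
          add_le_add card_image_le card_image_le
      _ = _ := by ring
  have h3 := hcard (2 * T + 1) α (E.image Int.natAbs) (by linarith) (by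
    intro n hn
    obtain ⟨z, hz, rfl⟩ := mem_image.1 hn
    obtain ⟨k, hk, rfl⟩ := mem_image.1 hz
    refine ⟨Int.natAbs_pos.2 (hf1 k hk), ?_, ?_⟩
    · have h6 : (((f k).natAbs : ℕ) : ℝ) = |(f k : ℝ)| :=
        Nat.cast_natAbs (f k) |>.trans (by push_cast; rfl)
      rw [h6]
      have h7 := hf3 k hk
      have hkJ : (k : ℝ) ≤ J := by exact_mod_cast Nat.lt_succ_iff.1 (mem_range.1 hk)
      have hkT : 4 * r * k ≤ T := by
        have : 4 * r * k ≤ 4 * r * (T ^ τ / 4) :=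
          mul_le_mul_of_nonneg_left (hkJ.trans hJ1) (by positivity)
        have h2 : 4 * r * (T ^ τ / 4) = r * T ^ τ := by ring
        rw [h2, hrτ] at this
        exact this
      have h8 := abs_sub_abs_le_abs_sub (f k : ℝ) (4 * r * k)
      rw [abs_of_nonneg (by positivity : 0 ≤ 4 * r * (k : ℝ))] at h8
      have h9 : r ≤ T := by
        have : (1 : ℝ) ≤ T ^ τ := Real.one_le_rpow hT1 (by linarith)
        nlinarith
      linarith
    · refine (hf2 k hk).trans ?_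
      exact Real.rpow_le_rpow hT0.le (by linarith) hα.le)
  have h4 : (2 * T + 1) ^ (α + η) ≤ 3 ^ (α + η) * T ^ (α + η) := by
    rw [← Real.mul_rpow (by norm_num) hT0.le]
    exact Real.rpow_le_rpow (by linarith) (by linarith) (by linarith)
  have h5 : ((J : ℝ) + 1) ≤ 2 * (D * (2 * T + 1) ^ (α + η)) := by
    have h6 : ((J + 1 : ℕ) : ℝ) ≤ ((2 * (E.image Int.natAbs).card : ℕ) : ℝ) := by
      rw [hEc] at hEn
      exact_mod_cast hEn
    push_cast at h6
    linarith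
  have h6 := mul_le_mul_of_nonneg_left h4 hD.le
  have h7 : 8 * D * 3 ^ (α + η) * T ^ (α + η) = 8 * (D * (3 ^ (α + η) * T ^ (α + η))) := by ring
  rw [h7] at h1
  linarith

/-- **Directions.** -/
theorem directions {m : ℕ} (hm : 2 ≤ m) (α : Fin (m + 1) → ℝ) (h0 : ∀ i, 0 < α i)
    (h1 : ∀ i, α i ≤ 1) (hs : 1 < ∑ i, α i) {τ : ℝ} (hτα : ∀ i, τ < α i)
    (hτs : m * τ < ∑ i, α i - 1) (ξ : Fin (m + 1) → ℝ) (hξ : ∑ i, ξ i = 0) (hξ1 : ∀ i, |ξ i| ≤ 1)
    (hξ2 : ∃ i, |ξ i| = 1) (B : ℝ) :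
    ∃ (x : Fin (m + 1) → ℤ) (H : ℕ), B ≤ H ∧ (∀ i, (x i).natAbs ≤ H) ∧ (∃ i, (x i).natAbs = H) ∧
      Adm x ∧ (∀ i, |(x i : ℝ) / H - ξ i| ≤ (H : ℝ) ^ (-τ)) ∧
      ∀ i, (rad (x i).natAbs : ℝ) ≤ (H : ℝ) ^ (α i) := by
  have hmR : (0 : ℝ) < m := by exact_mod_cast (by omega : 0 < m)
  obtain ⟨i0, -, hi0⟩ := Finset.exists_min_image (univ : Finset (Fin (m + 1))) α univ_nonempty
  have hM0 : max τ 0 < min ((∑ i, α i - 1) / m) (α i0) := by
    refine max_lt (lt_min ?_ (hτα i0)) (lt_min (div_pos (by linarith) hmR) (h0 i0))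
    rw [lt_div_iff₀ hmR]
    linarith
  obtain ⟨τ1, hτ11, hτ12⟩ := exists_between hM0
  set τ' : ℝ := max τ 0 with hτ'
  have hτ'0 : 0 ≤ τ' := le_max_right _ _
  have hτ'1 : τ ≤ τ' := le_max_left _ _
  have h2 := near hm α h0 h1 hs (τ := τ1) (fun i => by
      have h3 := hi0 i (mem_univ _)
      have h4 := min_le_right ((∑ i, α i - 1) / m) (α i0)
      linarith) (by
      have h3 := min_le_left ((∑ i, α i - 1) / m) (α i0)
      have h4 : τ1 < (∑ i, α i - 1) / m := by linarith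
      rw [lt_div_iff₀ hmR] at h4
      linarith)
  have e1 := ev_le 2 (show 1 - τ1 < 1 by linarith)
  have e2 := ev_le (4 * 2 ^ τ') (show -τ1 < -τ' by linarith)
  obtain ⟨T, hT, hT1, hT2, hT3, hTB⟩ := (h2.and (e1.and (e2.and
    ((eventually_ge_atTop 2).and (eventually_ge_atTop (2 * B)))))).exists
  have hT0 : 0 < T := by linarith
  rw [Real.rpow_one] at hT1
  obtain ⟨x, hx1, hx2, hx3⟩ := hT (fun i => T * ξ i) (by rw [← Finset.mul_sum, hξ, mul_zero])
    (fun i => by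
      rw [abs_mul, abs_of_pos hT0]
      exact mul_le_of_le_one_right hT0.le (hξ1 i))
  set E : ℝ := T ^ (1 - τ1) with hE
  have hE0 : 0 < E := Real.rpow_pos_of_pos hT0 _
  obtain ⟨i1, -, hi1⟩ := Finset.exists_max_image (univ : Finset (Fin (m + 1)))
    (fun i => (x i).natAbs) univ_nonempty
  have hcast : ∀ i, (((x i).natAbs : ℕ) : ℝ) = |(x i : ℝ)| := fun i =>
    Nat.cast_natAbs (x i) |>.trans (by push_cast; rfl)
  set H : ℕ := (x i1).natAbs with hH
  have hHT : (H : ℝ) ≤ T + E := by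
    rw [hH, hcast]
    have h3 := abs_sub_abs_le_abs_sub (x i1 : ℝ) (T * ξ i1)
    have h4 := hx2 i1
    have h5 : |T * ξ i1| ≤ T := by
      rw [abs_mul, abs_of_pos hT0]
      exact mul_le_of_le_one_right hT0.le (hξ1 i1)
    linarith
  have hTH : T - E ≤ (H : ℝ) := by
    obtain ⟨i2, hi2⟩ := hξ2
    have h3 : (((x i2).natAbs : ℕ) : ℝ) ≤ H := by exact_mod_cast hi1 i2 (mem_univ _)
    rw [hcast] at h3
    have h4 := abs_sub_abs_le_abs_sub (T * ξ i2) (x i2 : ℝ)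
    have h5 := hx2 i2
    rw [abs_sub_comm] at h5
    rw [abs_mul, abs_of_pos hT0, hi2] at h4
    linarith
  have hH1 : T / 2 ≤ H := by linarith
  have hH2 : (H : ℝ) ≤ 2 * T := by linarith
  have hH0 : (0 : ℝ) < H := by linarith
  have hH3 : (1 : ℝ) ≤ H := by linarith
  refine ⟨x, H, by linarith, fun i => hi1 i (mem_univ _), ⟨i1, rfl⟩, hx1, fun i => ?_,
    fun i => ?_⟩
  · have h3 : (x i : ℝ) / H - ξ i = (((x i : ℝ) - T * ξ i) + (T - H) * ξ i) / H := by
      field_simp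
      ring
    rw [h3, abs_div, abs_of_pos hH0, div_le_iff₀ hH0]
    have h4 : |((x i : ℝ) - T * ξ i) + (T - H) * ξ i| ≤ 2 * E := by
      refine (abs_add_le _ _).trans ?_
      have h5 := hx2 i
      have h6 : |(T - H) * ξ i| ≤ E := by
        rw [abs_mul]
        have h7 : |T - (H : ℝ)| ≤ E := abs_le.2 ⟨by linarith, by linarith⟩
        calc |T - (H : ℝ)| * |ξ i| ≤ E * 1 :=
              mul_le_mul h7 (hξ1 i) (abs_nonneg _) hE0.le
          _ = E := mul_one _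
      linarith
    refine h4.trans ?_
    have h5 : (H : ℝ) ^ (-τ') ≤ (H : ℝ) ^ (-τ) :=
      Real.rpow_le_rpow_of_exponent_le hH3 (by linarith)
    have h6 : (2 * T) ^ (-τ') ≤ (H : ℝ) ^ (-τ') :=
      Real.rpow_le_rpow_of_nonpos hH0 hH2 (by linarith)
    have h7 : 4 * T ^ (-τ1) ≤ (2 * T) ^ (-τ') := by
      rw [Real.mul_rpow (by norm_num) hT0.le, Real.rpow_neg (by norm_num) τ']
      rw [inv_mul_eq_div, le_div_iff₀ (by positivity)]
      calc 4 * T ^ (-τ1) * 2 ^ τ' = 4 * 2 ^ τ' * T ^ (-τ1) := by ring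
        _ ≤ _ := hT2
    have h8 : E = T * T ^ (-τ1) := by
      rw [hE, sub_eq_add_neg, Real.rpow_add hT0, Real.rpow_one]
    have h9 : 4 * T ^ (-τ1) ≤ (H : ℝ) ^ (-τ) := h7.trans (h6.trans h5)
    have h10 : (4 * T ^ (-τ1)) * (T / 2) ≤ (H : ℝ) ^ (-τ) * H :=
      mul_le_mul h9 hH1 (by linarith) (Real.rpow_nonneg hH0.le _)
    rw [h8]
    linarith
  · refine (hx3 i).trans ?_
    have h3 : T ^ (α i) ≤ (2 * H) ^ (α i) :=
      Real.rpow_le_rpow hT0.le (by linarith) (h0 i).le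
    rw [Real.mul_rpow (by norm_num) hH0.le] at h3
    have h4 : (2 : ℝ) ^ (α i) ≤ 2 := by
      have := Real.rpow_le_rpow_of_exponent_le (show (1 : ℝ) ≤ 2 by norm_num) (h1 i)
      rwa [Real.rpow_one] at this
    have h5 := Real.rpow_nonneg hH0.le (α i)
    nlinarith

end Pool.Agent.H34x.NT
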