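import Pool.Agent.H34x.NT.Short
import Pool.Agent.H34x.NT.Count

/-!
# Zero sum vectors with pairwise coprime coordinates near a real point
-/

set_option autoImplicit false

namespace Pool.Agent.H34x.NT

open Finset

/-- independence of the rows of `PP` -/
theorem row_ne {F : Type} [Field F] {m : ℕ} (hm : 2 ≤ m) {i i' : Fin (m + 1)} (h : i ≠ i') (c : F) :
    (fun j => ((PP m i' j : ℤ) : F)) ≠ c • fun j => ((PP m i j : ℤ) : F) := by
  intro heq
  have hj : ∀ j, ((PP m i' j : ℤ) : F) = c * ((PP m i j : ℤ) : F) := fun j => congrFun heq j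
  have hex : ∀ k : Fin m, ∃ j : Fin m, j ≠ k := by
    intro k
    by_cases hk : k = ⟨0, by omega⟩
    · refine ⟨⟨1, by omega⟩, ?_⟩
      rw [hk]
      intro h'
      have := congrArg Fin.val h'
      simp at this
    · exact ⟨⟨0, by omega⟩, fun h' => hk h'.symm⟩
  revert h hj
  refine Fin.lastCases (fun h hj => ?_) (fun k' h hj => ?_) i'
  · -- `i' = last`
    obtain ⟨k, rfl⟩ : ∃ k : Fin m, k.castSucc = i := Fin.exists_castSucc_eq.2 h
    obtain ⟨j, hjk⟩ := hex k
    have h1 := hj j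
    unfold PP at h1
    rw [if_pos rfl, if_neg (Fin.castSucc_ne_last k), if_neg (fun h' =>
      hjk (Fin.castSucc_injective m h').symm)] at h1
    simp at h1
  · revert h hj
    refine Fin.lastCases (fun h hj => ?_) (fun k h hj => ?_) i
    · obtain ⟨j, hjk⟩ := hex k'
      have h1 := hj j
      unfold PP at h1
      rw [if_pos rfl, if_neg (Fin.castSucc_ne_last k'), if_neg (fun h' =>
        hjk (Fin.castSucc_injective m h').symm)] at h1
      have hc : c = 0 := by
        simp at h1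
        exact h1
      have h2 := hj k'
      unfold PP at h2
      rw [if_pos rfl, if_neg (Fin.castSucc_ne_last k'), if_pos rfl, hc] at h2
      simp at h2
    · have h2 := hj k'
      unfold PP at h2
      rw [if_neg (Fin.castSucc_ne_last k'), if_pos rfl, if_neg (Fin.castSucc_ne_last k),
        if_neg h] at h2
      simp at h2

theorem row_ne_zero {F : Type} [Field F] {m : ℕ} (hm : 2 ≤ m) (i : Fin (m + 1)) :
    (fun j => ((PP m i j : ℤ) : F)) ≠ 0 := by
  intro h
  have hex : ∃ i', i' ≠ i := by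
    by_cases hk : i = ⟨0, by omega⟩
    · refine ⟨⟨1, by omega⟩, ?_⟩
      rw [hk]
      intro h'
      have := congrArg Fin.val h'
      simp at this
    · exact ⟨⟨0, by omega⟩, fun h' => hk h'.symm⟩
  obtain ⟨i', hi'⟩ := hex
  apply row_ne (F := F) hm hi' 0
  rw [h, zero_smul]

theorem minor_ne {F : Type} [Field F] {m : ℕ} (hm : 2 ≤ m) (Z : Matrix (Fin m) (Fin m) F)
    (hZ : Z.det ≠ 0) {i i' : Fin (m + 1)} (h : i ≠ i') (l : Fin m)
    (hl : Z.mulVec (fun j => ((PP m i j : ℤ) : F)) l ≠ 0) :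
    ∃ l', Z.mulVec (fun j => ((PP m i j : ℤ) : F)) l *
        Z.mulVec (fun j => ((PP m i' j : ℤ) : F)) l' -
      Z.mulVec (fun j => ((PP m i' j : ℤ) : F)) l *
        Z.mulVec (fun j => ((PP m i j : ℤ) : F)) l' ≠ 0 := by
  by_contra hcon
  push Not at hcon
  set a := Z.mulVec (fun j => ((PP m i j : ℤ) : F)) with ha
  set b := Z.mulVec (fun j => ((PP m i' j : ℤ) : F)) with hb
  apply row_ne hm h (b l / a l)
  have h1 : Z.mulVec ((fun j => ((PP m i' j : ℤ) : F)) -
      (b l / a l) • fun j => ((PP m i j : ℤ) : F)) = 0 := by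
    rw [Matrix.mulVec_sub, Matrix.mulVec_smul, ← ha, ← hb]
    funext l'
    have h2 := hcon l'
    simp only [Pi.sub_apply, Pi.smul_apply, smul_eq_mul, Pi.zero_apply]
    field_simp
    linear_combination h2
  exact sub_eq_zero.1 (Matrix.eq_zero_of_mulVec_eq_zero hZ h1)

/-- the coordinates of the generators -/
def GA {m : ℕ} (w : ℤ) (Z : Matrix (Fin m) (Fin m) ℤ) (i : Fin (m + 1)) (l : Fin m) : ℤ :=
  w * ∑ j, PP m i j * Z l j

theorem GA_cast {F : Type} [Field F] {m : ℕ} (w : ℤ) (Z : Matrix (Fin m) (Fin m) ℤ)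
    (i : Fin (m + 1)) (l : Fin m) : ((GA w Z i l : ℤ) : F) =
      (w : F) * (Z.map (Int.castRingHom F)).mulVec (fun j => ((PP m i j : ℤ) : F)) l := by
  unfold GA
  simp only [Matrix.mulVec, dotProduct, Matrix.map_apply]
  push_cast
  congr 1
  refine Finset.sum_congr rfl fun j _ => ?_
  rw [mul_comm]
  rfl

theorem GA_zero {m : ℕ} (hm : 2 ≤ m) {w : ℤ} (hw : w ≠ 0) (Z : Matrix (Fin m) (Fin m) ℤ)
    (hZ : Z.det ≠ 0) {i i' : Fin (m + 1)} (h : i ≠ i') :
    ∃ l, GA w Z i l ≠ 0 ∧ ∃ l', GA w Z i l * GA w Z i' l' - GA w Z i' l * GA w Z i l' ≠ 0 := by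
  have hdet : (Z.map (Int.castRingHom ℚ)).det ≠ 0 := by
    have h1 : (Z.map (Int.castRingHom ℚ)).det = ((Z.det : ℤ) : ℚ) :=
      ((Int.castRingHom ℚ).map_det Z).symm
    rw [h1]
    exact_mod_cast hZ
  have hwQ : (w : ℚ) ≠ 0 := by exact_mod_cast hw
  obtain ⟨l, hl⟩ : ∃ l, (Z.map (Int.castRingHom ℚ)).mulVec (fun j => ((PP m i j : ℤ) : ℚ)) l ≠ 0 := by
    by_contra hcon
    push Not at hcon
    exact row_ne_zero hm i (Matrix.eq_zero_of_mulVec_eq_zero hdet (funext hcon))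
  obtain ⟨l', hl'⟩ := minor_ne hm _ hdet h l hl
  refine ⟨l, ?_, l', ?_⟩
  · intro h0
    have h1 := GA_cast (F := ℚ) w Z i l
    rw [h0, Int.cast_zero] at h1
    rcases mul_eq_zero.1 h1.symm with h2 | h2
    · exact hwQ h2
    · exact hl h2
  · intro h0
    have h1 : (((GA w Z i l * GA w Z i' l' - GA w Z i' l * GA w Z i l' : ℤ)) : ℚ) = 0 := by
      rw [h0, Int.cast_zero]
    push_cast at h1
    rw [GA_cast, GA_cast, GA_cast, GA_cast] at h1
    apply hl'
    have h2 : (w : ℚ) ^ 2 ≠ 0 := pow_ne_zero _ hwQ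
    apply mul_left_cancel₀ h2
    rw [mul_zero]
    linear_combination h1

theorem GA_mod {m : ℕ} (hm : 2 ≤ m) {w : ℤ} (Z : Matrix (Fin m) (Fin m) ℤ) {p : ℕ} (hp : p.Prime)
    (hw : ¬ (p : ℤ) ∣ w) (hZ : ¬ (p : ℤ) ∣ Z.det) {i i' : Fin (m + 1)} (h : i ≠ i') :
    ∃ l l', ¬ (p : ℤ) ∣ GA w Z i l * GA w Z i' l' - GA w Z i l' * GA w Z i' l := by
  haveI : Fact p.Prime := ⟨hp⟩
  have hdet : (Z.map (Int.castRingHom (ZMod p))).det ≠ 0 := by
    have h1 : (Z.map (Int.castRingHom (ZMod p))).det = ((Z.det : ℤ) : ZMod p) :=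
      ((Int.castRingHom (ZMod p)).map_det Z).symm
    rw [h1]
    intro h2
    exact hZ ((ZMod.intCast_zmod_eq_zero_iff_dvd _ _).1 h2)
  have hwQ : (w : ZMod p) ≠ 0 := fun h2 => hw ((ZMod.intCast_zmod_eq_zero_iff_dvd _ _).1 h2)
  obtain ⟨l, hl⟩ : ∃ l, (Z.map (Int.castRingHom (ZMod p))).mulVec
      (fun j => ((PP m i j : ℤ) : ZMod p)) l ≠ 0 := by
    by_contra hcon
    push Not at hcon
    exact row_ne_zero hm i (Matrix.eq_zero_of_mulVec_eq_zero hdet (funext hcon))
  obtain ⟨l', hl'⟩ := minor_ne hm _ hdet h l hl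
  refine ⟨l, l', fun h0 => ?_⟩
  have h1 : (((GA w Z i l * GA w Z i' l' - GA w Z i l' * GA w Z i' l : ℤ)) : ZMod p) = 0 :=
    (ZMod.intCast_zmod_eq_zero_iff_dvd _ _).2 h0
  push_cast at h1
  rw [GA_cast, GA_cast, GA_cast, GA_cast] at h1
  apply hl'
  have h2 : (w : ZMod p) ^ 2 ≠ 0 := pow_ne_zero _ hwQ
  apply mul_left_cancel₀ h2
  rw [mul_zero]
  linear_combination h1

theorem GA_sub {m : ℕ} {w : ℤ} (hw : w ≠ 0) (Z : Matrix (Fin m) (Fin m) ℤ)
    (hZ : Z.det ≠ 0) {I : Finset (Fin (m + 1))} (h1 : I.Nonempty) (h2 : I ≠ univ) :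
    ∃ l, ∑ i ∈ I, GA w Z i l ≠ 0 := by
  by_contra hcon
  push Not at hcon
  have h3 : ∀ l, ∑ j, Z l j * ∑ i ∈ I, PP m i j = 0 := by
    intro l
    have h4 := hcon l
    unfold GA at h4
    rw [← Finset.mul_sum] at h4
    have h5 := (mul_eq_zero.1 h4).resolve_left hw
    rw [Finset.sum_comm] at h5
    rw [← h5]
    refine Finset.sum_congr rfl fun j _ => ?_
    rw [Finset.mul_sum]
    refine Finset.sum_congr rfl fun i _ => by ring
  have h4 : (fun j => ∑ i ∈ I, PP m i j) = 0 :=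
    Matrix.eq_zero_of_mulVec_eq_zero hZ (funext h3)
  have hval : ∀ j : Fin m, ∑ i ∈ I, PP m i j =
      (if j.castSucc ∈ I then 1 else 0) - (if Fin.last m ∈ I then 1 else 0) := by
    intro j
    have h5 : ∀ i, PP m i j = (if i = j.castSucc then 1 else 0) - (if i = Fin.last m then 1 else 0) := by
      intro i
      unfold PP
      by_cases h6 : i = Fin.last m
      · rw [if_pos h6, if_neg, if_pos h6]
        · ring
        · rw [h6]
          exact (Fin.castSucc_ne_last j).symm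
      · rw [if_neg h6, if_neg h6, sub_zero]
    simp only [h5]
    rw [Finset.sum_sub_distrib, Finset.sum_ite_eq', Finset.sum_ite_eq']
  by_cases hlast : Fin.last m ∈ I
  · obtain ⟨i, hi⟩ : ∃ i, i ∉ I := by
      by_contra hc
      push Not at hc
      exact h2 (Finset.eq_univ_iff_forall.2 hc)
    have hi' : i ≠ Fin.last m := fun h => hi (h ▸ hlast)
    obtain ⟨j, rfl⟩ := Fin.exists_castSucc_eq.2 hi'
    have h5 := congrFun h4 j
    simp only [Pi.zero_apply] at h5
    rw [hval, if_neg hi, if_pos hlast] at h5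
    norm_num at h5
  · obtain ⟨i, hi⟩ := h1
    have hi' : i ≠ Fin.last m := fun h => hlast (h ▸ hi)
    obtain ⟨j, rfl⟩ := Fin.exists_castSucc_eq.2 hi'
    have h5 := congrFun h4 j
    simp only [Pi.zero_apply] at h5
    rw [hval, if_pos hi, if_neg hlast] at h5
    norm_num at h5

end Pool.Agent.H34x.NT
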