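import Pool.Agent.H34x.NT.Point

/-!
# Zero sum vectors with prescribed radicals near a real direction
-/

set_option autoImplicit false

namespace Pool.Agent.H34x.NT

open Finset Filter

/-- smaller exponents with the critical sum -/
theorem alpha_red {m : ℕ} (α : Fin (m + 1) → ℝ) {τ : ℝ} (hτ1 : τ < 1) (hτ : ∀ i, τ < α i)
    (hs : 1 + m * τ ≤ ∑ i, α i) :
    ∃ α' : Fin (m + 1) → ℝ, (∀ i, τ < α' i) ∧ (∀ i, α' i ≤ α i) ∧ ∑ i, α' i = 1 + m * τ := by
  set D : ℝ := ∑ i, α i - (m + 1) * τ with hD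
  have hD0 : 1 - τ ≤ D := by rw [hD]; linarith
  have hD1 : 0 < D := by linarith
  have hl : (1 - τ) / D ≤ 1 := (div_le_one hD1).2 hD0
  have hl0 : 0 < (1 - τ) / D := div_pos (by linarith) hD1
  refine ⟨fun i => τ + (1 - τ) / D * (α i - τ), fun i => ?_, fun i => ?_, ?_⟩
  · have := mul_pos hl0 (sub_pos.2 (hτ i))
    simp only
    linarith
  · have := mul_le_of_le_one_left (sub_pos.2 (hτ i)).le hl
    simp only
    linarith
  · have h1 : ∑ i, (τ + (1 - τ) / D * (α i - τ)) =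
        (m + 1) * τ + (1 - τ) / D * (∑ i, α i - (m + 1) * τ) := by
      rw [Finset.sum_add_distrib, ← Finset.mul_sum, Finset.sum_sub_distrib]
      simp
    rw [h1, ← hD, div_mul_cancel₀ _ hD1.ne']
    ring

theorem ev_le (C : ℝ) {c d : ℝ} (h : c < d) : ∀ᶠ T : ℝ in atTop, C * T ^ c ≤ T ^ d := by
  have h1 := tendsto_rpow_atTop (sub_pos.2 h)
  filter_upwards [h1.eventually_ge_atTop C, eventually_gt_atTop 0] with T hT hT0
  calc C * T ^ c ≤ T ^ (d - c) * T ^ c :=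
        mul_le_mul_of_nonneg_right hT (Real.rpow_nonneg hT0.le _)
    _ = T ^ d := by rw [← Real.rpow_add hT0]; ring_nf

/-- distinct large primes -/
theorem primes (P0 n : ℕ) : ∃ b : Fin n → ℕ, (∀ i, (b i).Prime) ∧ (∀ i j, i ≠ j → b i ≠ b j) ∧
    ∀ i, P0 < b i := by
  have hinf := Nat.infinite_setOfPred_prime
  refine ⟨fun i => Nat.nth Nat.Prime (P0 + 1 + i), fun i => Nat.prime_nth_prime _, ?_, fun i => ?_⟩
  · intro i j hij h
    have h1 := Nat.nth_injective hinf h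
    apply hij
    ext
    omega
  · have h1 := Nat.add_two_le_nth_prime (P0 + 1 + i)
    show P0 < Nat.nth Nat.Prime (P0 + 1 + i)
    omega

/-- **Points.** Zero sum vectors near a given real one, whose coordinates are divisible by large
powers of fixed primes. -/
theorem points {m : ℕ} (hm : 2 ≤ m) (a : Fin (m + 1) → ℝ) {τ2 τ1 : ℝ} (hτ1 : 0 < τ1)
    (hτ : τ1 < τ2) (hτ2 : τ2 < 1) (ha0 : ∀ i, 0 ≤ a i) (ha1 : ∀ i, a i < 1 - τ2)
    (has : ∑ i, a i = m * (1 - τ2)) :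
    ∃ b : Fin (m + 1) → ℕ, (∀ i, 2 ≤ b i) ∧ (∀ i, (b i).Prime) ∧
    ∀ᶠ T : ℝ in atTop, ∀ y : Fin (m + 1) → ℝ, ∑ i, y i = 0 → (∀ i, |y i| ≤ T) →
      ∃ (x : Fin (m + 1) → ℤ) (e : Fin (m + 1) → ℕ), ∑ i, x i = 0 ∧
        (∀ i, (b i : ℤ) ^ (e i) ∣ x i) ∧ (∀ i, 4 * b i * T ^ (a i) ≤ (b i : ℝ) ^ (e i)) ∧
        (∀ i j, i ≠ j → IsCoprime (x i) (x j)) ∧
        (∀ I : Finset (Fin (m + 1)), I.Nonempty → I ≠ univ → ∑ i ∈ I, x i ≠ 0) ∧
        ∀ i, |(x i : ℝ) - y i| ≤ T ^ (1 - τ1) := by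
  have hm0 : 0 < m := by omega
  have hmR : (2 : ℝ) ≤ m := by exact_mod_cast hm
  have hmR0 : (0 : ℝ) < m := by linarith
  set Q : ℕ := ⌈(m.factorial : ℝ) * (2 * (m : ℝ) ^ m) ^ m⌉₊ with hQ
  set P0 : ℕ := max Q (16 * (m + 1) ^ 2) with hP0
  obtain ⟨b, hbp, hbi, hbP⟩ := primes P0 (m + 1)
  have hb2 : ∀ i, 2 ≤ b i := fun i => (hbp i).two_le
  have hcop : ∀ i j, i ≠ j → Nat.Coprime (b i) (b j) := fun i j hij =>
    (Nat.coprime_primes (hbp i) (hbp j)).2 (hbi i j hij)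
  refine ⟨b, hb2, hbp, ?_⟩
  set γ : ℝ := (τ2 - τ1) / (2 * m) with hγ
  have hd : 0 < τ2 - τ1 := by linarith
  have hγ0 : 0 < γ := by positivity
  have hγm : m * γ = (τ2 - τ1) / 2 := by rw [hγ]; field_simp
  have hγ1 : γ ≤ 1 := by
    have h1 : γ ≤ m * γ := by nlinarith
    rw [hγm] at h1
    linarith
  obtain ⟨N0, C, Q', hC, hQ', hshort⟩ := short_vectors hm0 b hb2 hcop hγ0 hγ1
  rw [← hQ] at hQ'
  subst hQ'
  set κ : ℝ := (τ2 - τ1) / 4 with hκ
  have hκ0 : 0 < κ := by positivity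
  have hκ1 : κ ≤ 1 := by rw [hκ]; linarith
  set ω : ℕ := ⌈4 / κ⌉₊ with hω
  have hωκ : 4 ≤ κ * ((ω : ℝ) + 1) := by
    have h1 : 4 / κ ≤ ω := Nat.le_ceil _
    have h2 : 4 = κ * (4 / κ) := by field_simp
    nlinarith
  have hb0 : ∀ i, (0 : ℝ) < b i := fun i => by exact_mod_cast (by have := hb2 i; omega : 0 < b i)
  have hblog : ∀ i, 0 < Real.log (b i) := fun i =>
    Real.log_pos (by exact_mod_cast (by have := hb2 i; omega : 1 < b i))
  set c : Fin (m + 1) → ℝ := fun i => Real.log 4 + 2 * Real.log (b i) with hc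
  have hlog4 : 0 < Real.log 4 := Real.log_pos (by norm_num)
  have hc0 : ∀ i, 0 < c i := fun i => by
    have := hblog i
    simp only [hc]
    linarith
  set C1 : ℝ := (∑ i, c i) / m with hC1
  have hC10 : 0 ≤ C1 := div_nonneg (Finset.sum_nonneg fun i _ => (hc0 i).le) hmR0.le
  set w : ℤ := (P0.factorial : ℤ) * ∏ i, (b i : ℤ) with hw
  have hw0 : 0 < w := by
    have h1 : (0 : ℤ) < P0.factorial := by exact_mod_cast Nat.factorial_pos _
    have h2 : 0 < ∏ i, (b i : ℤ) := Finset.prod_pos fun i _ => by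
      exact_mod_cast (hbp i).pos
    rw [hw]
    positivity
  have hwR : (0 : ℝ) < w := by exact_mod_cast hw0
  set C2 : ℝ := C * Real.exp ((1 + m * γ) * C1) with hC2
  have hC20 : 0 < C2 := by positivity
  set C3 : ℝ := w * (m * C2) with hC3
  have hC30 : 0 < C3 := by positivity
  set τ3 : ℝ := (τ1 + τ2) / 2 with hτ3
  -- largeness
  have e1 : ∀ᶠ T : ℝ in atTop, N0 / (1 - τ2) ≤ Real.log T :=
    Real.tendsto_log_atTop.eventually_ge_atTop _
  have e2 : ∀ᶠ T : ℝ in atTop, ∀ i, c i / (1 - τ2 - a i) ≤ Real.log T :=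
    eventually_all.2 fun i => Real.tendsto_log_atTop.eventually_ge_atTop _
  have e3 := ev_le (1 + C3 + 2 * C3 * (1 + 2 * m * C3) + 1) (show (3 : ℝ) < 4 by norm_num)
  have e4 : ∀ᶠ T : ℝ in atTop, (4 * ((m + 1) ^ 2 * (1 + 2 * ω) + 2 ^ (m + 1)) : ℝ) ≤ T ^ κ :=
    (tendsto_rpow_atTop hκ0).eventually_ge_atTop _
  have e5 := ev_le (2 * m * C3) (show 1 - τ3 + κ < 1 - τ1 by rw [hτ3, hκ]; linarith)
  filter_upwards [e1, e2, e3, e4, e5, eventually_ge_atTop 1] with T h1 h2 h3 h4 h5 h6 y hy hyT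
  have hT0 : 0 < T := by linarith
  set L : ℝ := Real.log T with hL
  have hL0 : 0 ≤ L := Real.log_nonneg h6
  set e : Fin (m + 1) → ℕ := fun i => ⌈(Real.log (4 * b i) + a i * L) / Real.log (b i)⌉₊ with he
  have hl4 : ∀ i, Real.log (4 * b i) = Real.log 4 + Real.log (b i) := fun i =>
    Real.log_mul (by norm_num) (hb0 i).ne'
  have he1 : ∀ i, Real.log (4 * b i) + a i * L ≤ e i * Real.log (b i) := by
    intro i
    have := Nat.le_ceil ((Real.log (4 * b i) + a i * L) / Real.log (b i))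
    exact (div_le_iff₀ (hblog i)).1 this
  have he2 : ∀ i, (e i : ℝ) * Real.log (b i) ≤ c i + a i * L := by
    intro i
    have h7 : 0 ≤ (Real.log (4 * b i) + a i * L) / Real.log (b i) := by
      apply div_nonneg _ (hblog i).le
      have := mul_nonneg (ha0 i) hL0
      have := hblog i
      rw [hl4]
      linarith
    have := (Nat.ceil_lt_add_one h7).le
    have h8 : (e i : ℝ) * Real.log (b i) ≤
        ((Real.log (4 * b i) + a i * L) / Real.log (b i) + 1) * Real.log (b i) :=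
      mul_le_mul_of_nonneg_right this (hblog i).le
    rw [add_mul, div_mul_cancel₀ _ (hblog i).ne', hl4] at h8
    simp only [hc]
    linarith
  have he0 : ∀ i, 1 ≤ e i := by
    intro i
    by_contra hcon
    have h7 : e i = 0 := by omega
    have h8 := he1 i
    rw [h7] at h8
    have h9 := mul_nonneg (ha0 i) hL0
    have h10 := hblog i
    rw [hl4] at h8
    simp only [Nat.cast_zero, zero_mul] at h8
    linarith
  have he4 : ∀ i, 4 * b i * T ^ (a i) ≤ (b i : ℝ) ^ (e i) := by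
    intro i
    have h7 : (0 : ℝ) < 4 * b i * T ^ (a i) := by
      have := hb0 i
      have := Real.rpow_pos_of_pos hT0 (a i)
      positivity
    rw [← Real.log_le_log_iff h7 (pow_pos (hb0 i) _), Real.log_pow,
      Real.log_mul (by have := hb0 i; positivity) (Real.rpow_pos_of_pos hT0 _).ne',
      Real.log_rpow hT0]
    exact he1 i
  set N : ℝ := (∑ i, (e i : ℝ) * Real.log (b i)) / m with hN
  have hN1 : (1 - τ2) * L ≤ N := by
    rw [hN, le_div_iff₀ hmR0]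
    have h7 : ∑ i, a i * L ≤ ∑ i, (e i : ℝ) * Real.log (b i) := by
      apply Finset.sum_le_sum
      intro i _
      have := he1 i
      have := hblog i
      rw [hl4] at *
      linarith
    rw [← Finset.sum_mul, has] at h7
    linarith
  have hN2 : N ≤ C1 + (1 - τ2) * L := by
    rw [hN, hC1, div_add' _ _ _ hmR0.ne', div_le_div_iff_of_pos_right hmR0]
    have h7 : ∑ i, (e i : ℝ) * Real.log (b i) ≤ ∑ i, (c i + a i * L) :=
      Finset.sum_le_sum fun i _ => he2 i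
    rw [Finset.sum_add_distrib, ← Finset.sum_mul, has] at h7
    linarith
  have hN3 : N0 ≤ N := by
    have h7 := (div_le_iff₀ (by linarith : 0 < 1 - τ2)).1 h1
    linarith
  have hbal : ∀ i, (e i : ℝ) * Real.log (b i) ≤ N := by
    intro i
    have h7 := (div_le_iff₀ (by have := ha1 i; linarith : 0 < 1 - τ2 - a i)).1 (h2 i)
    have h8 := he2 i
    linarith
  obtain ⟨Z, hZd, hZU, hZ0, hZp⟩ := hshort N e hN3 (by rw [hN]; field_simp) hbal
  set U : ℝ := C * Real.exp ((1 + m * γ) * N) with hU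
  have hU0 : 0 ≤ U := by positivity
  have hU1 : U ≤ C2 * T ^ (1 - τ3) := by
    rw [hU, hC2, mul_assoc]
    apply mul_le_mul_of_nonneg_left _ hC.le
    have h7 : T ^ (1 - τ3) = Real.exp ((1 - τ3) * L) := by
      rw [Real.rpow_def_of_pos hT0, mul_comm]
    rw [h7, ← Real.exp_add]
    apply Real.exp_le_exp.2
    have h8 : (1 + m * γ) * N ≤ (1 + m * γ) * (C1 + (1 - τ2) * L) :=
      mul_le_mul_of_nonneg_left hN2 (by positivity)
    have h9 : (1 + m * γ) * (1 - τ2) ≤ 1 - τ3 := by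
      rw [hγm, hτ3]
      nlinarith
    have h10 := mul_le_mul_of_nonneg_right h9 hL0
    nlinarith
  set V : ℝ := w * (m * U) with hV
  have hV0 : 0 ≤ V := by positivity
  have hV1 : V ≤ C3 * T ^ (1 - τ3) := by
    rw [hV, hC3, mul_assoc, mul_assoc]
    apply mul_le_mul_of_nonneg_left _ hwR.le
    exact mul_le_mul_of_nonneg_left hU1 hmR0.le
  have hT3 : T ^ (1 - τ3) ≤ T := by
    have := Real.rpow_le_rpow_of_exponent_le h6 (show 1 - τ3 ≤ 1 by rw [hτ3]; linarith)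
    rwa [Real.rpow_one] at this
  have hV2 : V ≤ C3 * T := hV1.trans (mul_le_mul_of_nonneg_left hT3 hC30.le)
  set K : ℕ := ⌈T ^ κ⌉₊ with hK
  have hK0 : T ^ κ ≤ K := Nat.le_ceil _
  have hTκ1 : 1 ≤ T ^ κ := Real.one_le_rpow h6 hκ0.le
  have hK1 : (K : ℝ) ≤ 2 * T ^ κ := by
    have := (Nat.ceil_lt_add_one (by positivity : 0 ≤ T ^ κ)).le
    linarith
  have hTκT : T ^ κ ≤ T := by
    have := Real.rpow_le_rpow_of_exponent_le h6 hκ1
    rwa [Real.rpow_one] at this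
  have hK2 : (1 : ℝ) ≤ K := hTκ1.trans hK0
  have hK3 : (K : ℝ) ≤ 2 * T := by linarith
  set X : ℕ := ⌈V + 2 * V * (T + m * K * V)⌉₊ with hX
  have hmKV : 0 ≤ m * K * V := by positivity
  have hmKV1 : m * K * V ≤ m * (2 * T) * (C3 * T) := by
    apply mul_le_mul _ hV2 hV0 (by positivity)
    exact mul_le_mul_of_nonneg_left hK3 hmR0.le
  have hX0 : V + 2 * V * (T + m * K * V) ≤ X := Nat.le_ceil _
  have hX1 : (X : ℝ) < T ^ (4 : ℝ) := by
    have h7 := Nat.ceil_lt_add_one (show 0 ≤ V + 2 * V * (T + m * K * V) by positivity)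
    have h8 : 2 * V * (T + m * K * V) ≤ 2 * (C3 * T) * (T + m * (2 * T) * (C3 * T)) := by
      have g1 : 2 * V ≤ 2 * (C3 * T) := by linarith
      have g2 : T + m * K * V ≤ T + m * (2 * T) * (C3 * T) := by linarith
      exact mul_le_mul g1 g2 (by positivity) (by positivity)
    have h9 : T ^ (3 : ℝ) = T ^ 3 := by exact_mod_cast Real.rpow_natCast T 3
    rw [h9] at h3
    refine lt_of_lt_of_le ?_ h3
    refine lt_of_lt_of_le h7 ?_
    have h10 : T ≤ T ^ 3 := by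
      have := pow_le_pow_right₀ h6 (show 1 ≤ 3 by norm_num)
      rwa [pow_one] at this
    have h11 : T ^ 2 ≤ T ^ 3 := pow_le_pow_right₀ h6 (show 2 ≤ 3 by norm_num)
    have h12 : 2 * (C3 * T) * (T + m * (2 * T) * (C3 * T)) ≤
        2 * C3 * (1 + 2 * m * C3) * T ^ 3 := by
      have h16 : 2 * (C3 * T) * (T + m * (2 * T) * (C3 * T)) =
        2 * C3 * T ^ 2 + 2 * C3 * (2 * m * C3) * T ^ 3 := by ring
      have h17 : 2 * C3 * (1 + 2 * m * C3) * T ^ 3 =
        2 * C3 * T ^ 3 + 2 * C3 * (2 * m * C3) * T ^ 3 := by ring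
      rw [h16, h17]
      have h13 := mul_le_mul_of_nonneg_left h11 (by positivity : 0 ≤ 2 * C3)
      linarith
    have h14 := mul_le_mul_of_nonneg_left h10 hC30.le
    have h15 : 1 ≤ T ^ 3 := one_le_pow₀ h6
    have h18 : (1 + C3 + 2 * C3 * (1 + 2 * m * C3) + 1) * T ^ 3 =
      T ^ 3 + C3 * T ^ 3 + 2 * C3 * (1 + 2 * m * C3) * T ^ 3 + T ^ 3 := by ring
    rw [h18]
    linarith
  have hXω : X < K ^ (ω + 1) := by
    have h7 : T ^ (4 : ℝ) ≤ (K : ℝ) ^ (ω + 1) := by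
      calc T ^ (4 : ℝ) ≤ T ^ (κ * ((ω : ℝ) + 1)) := Real.rpow_le_rpow_of_exponent_le h6 hωκ
        _ = (T ^ κ) ^ (ω + 1) := by
            rw [Real.rpow_mul hT0.le, ← Real.rpow_natCast]
            push_cast
            rfl
        _ ≤ (K : ℝ) ^ (ω + 1) := pow_le_pow_left₀ (by positivity) hK0 _
    have h8 := lt_of_lt_of_le hX1 h7
    exact_mod_cast h8
  obtain ⟨x, hx1, hx2, hx3, hx4, hx5⟩ := exists_point hm (P0 := P0) (le_max_right _ _) b hbp hbi
    hbP w hw e he0 Z hZd hU0 hZU hZ0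
    (fun p hp hlt hdiv => hZp p hp (lt_of_le_of_lt (le_max_left _ _) hlt) hdiv)
    (K := K) (by exact_mod_cast hK2) (Y := T) y hy hyT (X := X) (ω := ω)
    (by
      have h7 : 0 ≤ 2 * V * (T + m * K * V) := by positivity
      linarith)
    (by linarith) hXω (by
      have h7 : (4 * ((m + 1) ^ 2 * (1 + 2 * ω) + 2 ^ (m + 1)) : ℝ) ≤ K := h4.trans hK0
      exact_mod_cast h7)
  refine ⟨x, e, hx1, hx2, he4, hx3, hx4, fun i => (hx5 i).trans ?_⟩
  refine le_trans ?_ h5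
  have h7 : m * K * V ≤ m * (2 * T ^ κ) * (C3 * T ^ (1 - τ3)) := by
    apply mul_le_mul _ hV1 hV0 (by positivity)
    exact mul_le_mul_of_nonneg_left hK1 hmR0.le
  refine h7.trans (le_of_eq ?_)
  rw [add_comm (1 - τ3) κ, Real.rpow_add hT0]
  ring

end Pool.Agent.H34x.NT
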