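import Pool.Agent.TH551.SU.Sst

/-!
# No short vectors in the lattices of the zero sum vectors with coordinates divisible by powers
-/

set_option autoImplicit false

namespace Pool.Agent.H34x.NT

open Finset Filter Topology
open Pool.Agent.TH461.SST

open scoped Classical in
/-- the number of nonzero rows of an injective matrix with column sums zero -/
theorem rank_le {n r : ℕ} (P : Matrix (Fin n) (Fin (r + 1)) ℤ) (L : Matrix (Fin (r + 1)) (Fin n) ℤ)
    (c : ℤ) (hc : c ≠ 0) (hLP : L * P = c • (1 : Matrix (Fin (r + 1)) (Fin (r + 1)) ℤ))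
    (hsum : ∀ l, ∑ i, P i l = 0) :
    (r + 1) + 1 + (univ.filter fun i => P i = 0).card ≤ n := by
  classical
  -- a nonzero row
  obtain ⟨i0, hi0⟩ : ∃ i0, P i0 ≠ 0 := by
    by_contra hcon
    push Not at hcon
    have h1 : P = 0 := by
      ext i j
      rw [hcon i]
      rfl
    rw [h1, Matrix.mul_zero] at hLP
    have h2 := congrFun (congrFun hLP 0) 0
    simp at h2
    exact hc h2.symm
  set J := {i : Fin n // P i ≠ 0 ∧ i ≠ i0} with hJ
  let f : (Fin (r + 1) → ℚ) →ₗ[ℚ] (J → ℚ) :=
    { toFun := fun q i => ∑ l, (P i.1 l : ℚ) * q l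
      map_add' := by
        intro x y
        funext i
        simp only [Pi.add_apply, mul_add, Finset.sum_add_distrib]
      map_smul' := by
        intro m x
        funext i
        simp only [Pi.smul_apply, smul_eq_mul, RingHom.id_apply, Finset.mul_sum]
        refine Finset.sum_congr rfl fun l _ => by ring }
  have hinj : Function.Injective f := by
    rw [injective_iff_map_eq_zero]
    intro q hq
    have h1 : ∀ i, i ≠ i0 → ∑ l, (P i l : ℚ) * q l = 0 := by
      intro i hi
      by_cases hP : P i = 0
      · rw [hP]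
        simp
      · exact congrFun hq ⟨i, hP, hi⟩
    have h2 : ∑ i, ∑ l, (P i l : ℚ) * q l = 0 := by
      rw [Finset.sum_comm]
      apply Finset.sum_eq_zero
      intro l _
      rw [← Finset.sum_mul]
      have h3 : ∑ i, (P i l : ℚ) = 0 := by exact_mod_cast hsum l
      rw [h3, zero_mul]
    have h3 : ∑ l, (P i0 l : ℚ) * q l = 0 := by
      rw [← h2]
      symm
      apply Finset.sum_eq_single
      · intro i _ hi
        exact h1 i hi
      · intro h
        exact absurd (mem_univ _) h
    have h4 : ∀ i, ∑ l, (P i l : ℚ) * q l = 0 := by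
      intro i
      by_cases h : i = i0
      · rw [h]; exact h3
      · exact h1 i h
    funext k
    have h5 : (c : ℚ) * q k = ∑ i, (L k i : ℚ) * ∑ l, (P i l : ℚ) * q l := by
      have h6 : ∀ l, ∑ i, (L k i : ℚ) * (P i l : ℚ) = if k = l then (c : ℚ) else 0 := by
        intro l
        have h7 := congrFun (congrFun hLP k) l
        rw [Matrix.mul_apply] at h7
        simp only [Matrix.smul_apply, Matrix.one_apply, smul_eq_mul] at h7
        have h8 : ((∑ i, L k i * P i l : ℤ) : ℚ) = ((c * if k = l then 1 else 0 : ℤ) : ℚ) := by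
          rw [h7]
        push_cast at h8
        rw [h8]
        split_ifs <;> simp
      calc (c : ℚ) * q k = ∑ l, (∑ i, (L k i : ℚ) * (P i l : ℚ)) * q l := by
            simp only [h6]
            simp
        _ = ∑ l, ∑ i, (L k i : ℚ) * ((P i l : ℚ) * q l) := by
            refine Finset.sum_congr rfl fun l _ => ?_
            rw [Finset.sum_mul]
            refine Finset.sum_congr rfl fun i _ => by ring
        _ = ∑ i, (L k i : ℚ) * ∑ l, (P i l : ℚ) * q l := by
            rw [Finset.sum_comm]
            refine Finset.sum_congr rfl fun i _ => ?_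
            rw [Finset.mul_sum]
    simp only [h4, mul_zero, Finset.sum_const_zero] at h5
    rcases mul_eq_zero.1 h5 with h6 | h6
    · exact absurd (by exact_mod_cast h6) hc
    · exact h6
  have h1 := LinearMap.finrank_le_finrank_of_injective hinj
  rw [Module.finrank_fintype_fun_eq_card, Module.finrank_fintype_fun_eq_card, Fintype.card_fin]
    at h1
  have h2 : Fintype.card J = (univ.filter fun i => P i ≠ 0 ∧ i ≠ i0).card :=
    Fintype.card_subtype _
  rw [h2] at h1
  have h3 : (univ.filter fun i => P i ≠ 0 ∧ i ≠ i0).card + 1 +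
      (univ.filter fun i => P i = 0).card = n := by
    have h4 : (univ.filter fun i => P i ≠ 0 ∧ i ≠ i0) =
        (univ.filter fun i => P i ≠ 0).erase i0 := by
      ext i
      simp only [mem_filter, mem_univ, true_and, mem_erase]
      tauto
    have h5 : i0 ∈ univ.filter fun i => P i ≠ 0 := by simp [hi0]
    rw [h4, Finset.card_erase_add_one h5]
    have h6 := Finset.card_filter_add_card_filter_not (s := (univ : Finset (Fin n)))
      (fun i => P i = 0)
    rw [Finset.card_univ, Fintype.card_fin] at h6
    simp only [ne_eq]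
    omega
  omega

/-- one step: the vectors frequently satisfy a further relation -/
theorem relation {n : ℕ} (b : Fin n → ℕ) (hb : ∀ i, 2 ≤ b i)
    (hcop : ∀ i j, i ≠ j → Nat.Coprime (b i) (b j)) {r : ℕ}
    (P : Matrix (Fin n) (Fin (r + 1)) ℤ) (L : Matrix (Fin (r + 1)) (Fin n) ℤ)
    (c : ℤ) (hc : c ≠ 0) (hLP : L * P = c • (1 : Matrix (Fin (r + 1)) (Fin (r + 1)) ℤ))
    (hsum : ∀ l, ∑ i, P i l = 0) (N : ℕ → ℝ) (hN : Tendsto N atTop atTop)
    (e : ℕ → Fin n → ℕ) (γ C : ℝ) (hγ : 0 < γ) (hγ1 : γ ≤ 1)
    (hD : ∀ t, ((n : ℝ) - 1) * N t ≤ ∑ i, (e t i : ℝ) * Real.log (b i))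
    (hbal : ∀ t i, (e t i : ℝ) * Real.log (b i) ≤ N t)
    (z : ℕ → Fin (r + 1) → ℤ) (hz : ∀ t, z t ≠ 0)
    (hdvd : ∀ t i, (b i : ℤ) ^ (e t i) ∣ ∑ l, P i l * z t l)
    (hsize : ∀ t i, |((∑ l, P i l * z t l : ℤ) : ℝ)| ≤ Real.exp ((1 - γ) * N t + C)) :
    ∃ y : Fin (r + 1) → ℤ, y ≠ 0 ∧ ∃ᶠ t in atTop, ∑ l, y l * z t l = 0 := by
  classical
  have hrank := rank_le P L c hc hLP hsum
  -- a bound for `z`
  obtain ⟨C1, hC1⟩ : ∃ C1 : ℝ, ∀ t l, |(z t l : ℝ)| ≤ Real.exp ((1 - γ) * N t + C1) := by
    refine ⟨C + Real.log (∑ l, ∑ i, |(L l i : ℝ)| + 1), fun t l => ?_⟩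
    set S : ℝ := ∑ l, ∑ i, |(L l i : ℝ)| with hS
    have hS0 : 0 ≤ S := Finset.sum_nonneg fun _ _ => Finset.sum_nonneg fun _ _ => abs_nonneg _
    have h1 : c * z t l = ∑ i, L l i * ∑ k, P i k * z t k := by
      have h6 : ∀ k, ∑ i, L l i * P i k = if l = k then c else 0 := by
        intro k
        have h7 := congrFun (congrFun hLP l) k
        rw [Matrix.mul_apply] at h7
        simp only [Matrix.smul_apply, Matrix.one_apply, smul_eq_mul] at h7
        rw [h7]
        split_ifs <;> simp
      calc c * z t l = ∑ k, (∑ i, L l i * P i k) * z t k := by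
            simp only [h6]
            simp
        _ = ∑ k, ∑ i, L l i * (P i k * z t k) := by
            refine Finset.sum_congr rfl fun k _ => ?_
            rw [Finset.sum_mul]
            refine Finset.sum_congr rfl fun i _ => by ring
        _ = ∑ i, L l i * ∑ k, P i k * z t k := by
            rw [Finset.sum_comm]
            refine Finset.sum_congr rfl fun i _ => ?_
            rw [Finset.mul_sum]
    have h2 : |(z t l : ℝ)| ≤ |(c : ℝ) * z t l| := by
      rw [abs_mul]
      have h3 : (1 : ℝ) ≤ |(c : ℝ)| := by exact_mod_cast Int.one_le_abs hc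
      nlinarith [abs_nonneg (z t l : ℝ)]
    have h3 : (c : ℝ) * z t l = ∑ i, (L l i : ℝ) * ((∑ k, P i k * z t k : ℤ) : ℝ) := by
      exact_mod_cast h1
    rw [h3] at h2
    calc |(z t l : ℝ)| ≤ ∑ i, |(L l i : ℝ) * ((∑ k, P i k * z t k : ℤ) : ℝ)| :=
          h2.trans (Finset.abs_sum_le_sum_abs _ _)
      _ ≤ ∑ i, |(L l i : ℝ)| * Real.exp ((1 - γ) * N t + C) := by
          refine Finset.sum_le_sum fun i _ => ?_
          rw [abs_mul]
          exact mul_le_mul_of_nonneg_left (hsize t i) (abs_nonneg _)
      _ = (∑ i, |(L l i : ℝ)|) * Real.exp ((1 - γ) * N t + C) := by rw [Finset.sum_mul]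
      _ ≤ (S + 1) * Real.exp ((1 - γ) * N t + C) := by
          apply mul_le_mul_of_nonneg_right _ (Real.exp_pos _).le
          have h4 : ∑ i, |(L l i : ℝ)| ≤ S :=
            Finset.single_le_sum (f := fun l => ∑ i, |(L l i : ℝ)|)
              (fun _ _ => Finset.sum_nonneg fun _ _ => abs_nonneg _) (mem_univ l)
          linarith
      _ = Real.exp ((1 - γ) * N t + (C + Real.log (S + 1))) := by
          have h5 : (0 : ℝ) < S + 1 := by linarith
          rw [show (1 - γ) * N t + (C + Real.log (S + 1)) =
            Real.log (S + 1) + ((1 - γ) * N t + C) by ring, Real.exp_add (Real.log (S + 1)),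
            Real.exp_log h5]
  -- large indices
  obtain ⟨t0, ht0⟩ := (Filter.eventually_atTop.1
    (hN.eventually_ge_atTop (max 1 (max |C1| (2 * |C1| / γ * 2)))))
  have hN1 : ∀ t, 1 ≤ N (t + t0) := fun t => (le_max_left _ _).trans (ht0 _ (by omega))
  have hN2 : ∀ t, |C1| ≤ N (t + t0) := fun t =>
    ((le_max_left _ _).trans (le_max_right _ _)).trans (ht0 _ (by omega))
  have hN3 : ∀ t, 2 * |C1| / γ * 2 ≤ N (t + t0) := fun t =>
    ((le_max_right _ _).trans (le_max_right _ _)).trans (ht0 _ (by omega))
  -- the forms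
  have hex : ∀ i : Fin n, ∃ l0 : Fin (r + 1), P i ≠ 0 → P i l0 ≠ 0 := by
    intro i
    by_cases h : P i = 0
    · exact ⟨0, fun h' => absurd h h'⟩
    · obtain ⟨l, hl⟩ := Function.ne_iff.1 h
      exact ⟨l, fun _ => hl⟩
  choose l0 hl0 using hex
  set M : Fin n → Matrix (Fin (r + 1)) (Fin (r + 1)) ℤ := fun i =>
    if P i = 0 then 1 else (1 : Matrix (Fin (r + 1)) (Fin (r + 1)) ℤ).updateRow (l0 i) (P i)
    with hM
  have hMdet : ∀ i, (M i).det ≠ 0 := by
    intro i
    simp only [hM]
    split_ifs with h
    · simp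
    · rw [← Matrix.det_transpose, ← Matrix.updateCol_transpose, Matrix.transpose_one,
        ← Matrix.cramer_apply, Matrix.cramer_one]
      exact hl0 i h
  set e' : ℕ → Fin n → Fin (r + 1) → ℕ := fun t i l =>
    if P i ≠ 0 ∧ l = l0 i then e (t + t0) i else 0 with he'
  have hlogb : ∀ i, 0 ≤ Real.log (b i) := fun i =>
    Real.log_nonneg (by exact_mod_cast (by have := hb i; omega : 1 ≤ b i))
  have hr0 : (0 : ℝ) < (r : ℝ) + 1 := by positivity
  have hsub := Pool.Agent.TH551.SU.sst (r + 1) n (by omega) 1 M b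
    ⟨by simp, hMdet, hb, hcop⟩ 2 (γ / 2) (by norm_num) (by positivity)
    (fun t => N (t + t0)) (hN.comp (tendsto_add_atTop_nat t0))
    e' (fun t _ => Real.exp ((1 - γ) * N (t + t0) + C1))
    (by
      intro t
      refine ⟨?_, fun _ => Real.exp_pos _, ?_, ?_⟩
      · intro i l
        simp only [he']
        split_ifs
        · linarith [hbal (t + t0) i, hN1 t]
        · simp
          linarith [hN1 t]
      · intro l
        rw [Real.log_exp]
        have h1 := abs_add_le ((1 - γ) * N (t + t0)) C1
        have h2 : |(1 - γ) * N (t + t0)| ≤ N (t + t0) := by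
          rw [abs_mul, abs_of_nonneg (show 0 ≤ 1 - γ by linarith),
            abs_of_nonneg (show 0 ≤ N (t + t0) by linarith [hN1 t])]
          nlinarith [hN1 t]
        linarith [hN2 t]
      · have h1 : ∀ i, ∑ l, (e' t i l : ℝ) * Real.log (b i) =
            if P i = 0 then 0 else (e (t + t0) i : ℝ) * Real.log (b i) := by
          intro i
          simp only [he']
          by_cases h : P i = 0
          · simp [h]
          · rw [if_neg h, Finset.sum_eq_single (l0 i)]
            · simp [h]
            · intro l _ hl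
              simp [hl]
            · intro h'
              exact absurd (mem_univ _) h'
        rw [Finset.sum_congr rfl fun i _ => h1 i]
        have h2 : ∑ i, (if P i = 0 then 0 else (e (t + t0) i : ℝ) * Real.log (b i)) =
            ∑ i, (e (t + t0) i : ℝ) * Real.log (b i) -
              ∑ i ∈ univ.filter (fun i => P i = 0), (e (t + t0) i : ℝ) * Real.log (b i) := by
          rw [Finset.sum_filter, ← Finset.sum_sub_distrib]
          refine Finset.sum_congr rfl fun i _ => ?_
          split_ifs <;> ring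
        rw [h2]
        have h3 : ∑ i ∈ univ.filter (fun i => P i = 0), (e (t + t0) i : ℝ) * Real.log (b i) ≤
            (univ.filter (fun i => P i = 0)).card * N (t + t0) := by
          rw [← nsmul_eq_mul]
          exact Finset.sum_le_card_nsmul _ _ _ fun i _ => hbal _ i
        have h4 : (((r + 1) + 1 + (univ.filter fun i => P i = 0).card : ℕ) : ℝ) ≤ n := by
          exact_mod_cast hrank
        push_cast at h4
        have h5 : ((r : ℝ) + 1) * N (t + t0) ≤
            ((n : ℝ) - 1 - (univ.filter fun i => P i = 0).card) * N (t + t0) := by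
          apply mul_le_mul_of_nonneg_right _ (by linarith [hN1 t])
          linarith
        have h6 : ∑ l : Fin (r + 1), Real.log (Real.exp ((1 - γ) * N (t + t0) + C1)) =
            ((r : ℝ) + 1) * ((1 - γ) * N (t + t0) + C1) := by
          rw [Real.log_exp, Finset.sum_const, Finset.card_univ, Fintype.card_fin, nsmul_eq_mul]
          push_cast
          ring
        rw [h6]
        have h7 : 4 * |C1| ≤ γ * N (t + t0) := by
          have h8 := hN3 t
          have h9 : 2 * |C1| / γ * 2 = 4 * |C1| / γ := by ring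
          rw [h9, div_le_iff₀ hγ] at h8
          linarith
        have h8 : C1 ≤ |C1| := le_abs_self _
        have h9 : γ / 2 * N (t + t0) + ((r : ℝ) + 1) * C1 ≤ ((r : ℝ) + 1) * (γ * N (t + t0)) := by
          have h10 : ((r : ℝ) + 1) * C1 ≤ ((r : ℝ) + 1) * (γ * N (t + t0) / 4) := by
            apply mul_le_mul_of_nonneg_left _ hr0.le
            linarith
          have h11 : 0 ≤ γ * N (t + t0) := by
            have := hN1 t
            positivity
          have h12 : (0 : ℝ) ≤ r := Nat.cast_nonneg r
          nlinarith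
        have h10 := hD (t + t0)
        nlinarith)
    (fun t => z (t + t0)) (fun t => hz _)
    (by
      intro t
      refine ⟨fun l => ?_, fun i l => ?_⟩
      · have h1 : ∑ j, (1 : Matrix (Fin (r + 1)) (Fin (r + 1)) ℤ) l j * z (t + t0) j =
            z (t + t0) l := by
          simp [Matrix.one_apply]
        rw [h1]
        exact hC1 _ _
      · simp only [he']
        split_ifs with h
        · obtain ⟨h1, h2⟩ := h
          have h3 : ∑ j, M i l j * z (t + t0) j = ∑ k, P i k * z (t + t0) k := by
            simp only [hM, if_neg h1]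
            rw [h2]
            simp [Matrix.updateRow_self]
          rw [h3]
          exact hdvd _ i
        · simp)
  obtain ⟨y, hy, hfr⟩ := hsub
  refine ⟨y, hy, ?_⟩
  exact (tendsto_add_atTop_nat t0).frequently hfr

/-- **No short vectors.** -/
theorem no_short {n : ℕ} (b : Fin n → ℕ) (hb : ∀ i, 2 ≤ b i)
    (hcop : ∀ i j, i ≠ j → Nat.Coprime (b i) (b j)) (γ : ℝ) (hγ : 0 < γ) (hγ1 : γ ≤ 1) :
    ∀ (r : ℕ) (P : Matrix (Fin n) (Fin r) ℤ) (L : Matrix (Fin r) (Fin n) ℤ) (c : ℤ) (_ : c ≠ 0)
    (_ : L * P = c • (1 : Matrix (Fin r) (Fin r) ℤ))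
    (_ : ∀ l, ∑ i, P i l = 0) (N : ℕ → ℝ) (_ : Tendsto N atTop atTop)
    (e : ℕ → Fin n → ℕ) (C : ℝ)
    (_ : ∀ t, ((n : ℝ) - 1) * N t ≤ ∑ i, (e t i : ℝ) * Real.log (b i))
    (_ : ∀ t i, (e t i : ℝ) * Real.log (b i) ≤ N t)
    (z : ℕ → Fin r → ℤ) (_ : ∀ t, z t ≠ 0)
    (_ : ∀ t i, (b i : ℤ) ^ (e t i) ∣ ∑ l, P i l * z t l)
    (_ : ∀ t i, |((∑ l, P i l * z t l : ℤ) : ℝ)| ≤ Real.exp ((1 - γ) * N t + C)), False := by
  intro r
  induction r with
  | zero =>
    intro P L c _ _ _ N _ e C _ _ z hz _ _
    exact hz 0 (Subsingleton.elim _ _)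
  | succ r ih =>
    intro P L c hc hLP hsum N hN e C hD hbal z hz hdvd hsize
    obtain ⟨y, hy, hfr⟩ := relation b hb hcop P L c hc hLP hsum N hN e γ C hγ hγ1 hD hbal z hz
      hdvd hsize
    obtain ⟨φ, hφ, hφy⟩ := Filter.extraction_of_frequently_atTop hfr
    obtain ⟨l0, hl0⟩ := Function.ne_iff.1 hy
    simp only [Pi.zero_apply] at hl0
    -- the new matrices
    set Q : Matrix (Fin (r + 1)) (Fin r) ℤ := fun l j =>
      if l = l0 then - y (l0.succAbove j) else if l = l0.succAbove j then y l0 else 0 with hQ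
    set R : Matrix (Fin r) (Fin (r + 1)) ℤ := fun j l => if l = l0.succAbove j then 1 else 0
      with hR
    have hRQ : R * Q = (y l0) • (1 : Matrix (Fin r) (Fin r) ℤ) := by
      ext j k
      rw [Matrix.mul_apply]
      simp only [hR, Matrix.smul_apply, Matrix.one_apply, smul_eq_mul, ite_mul, one_mul, zero_mul,
        Finset.sum_ite_eq', Finset.mem_univ, if_true]
      simp only [hQ, Fin.succAbove_ne, if_false]
      by_cases h : j = k
      · simp [h]
      · have h' : l0.succAbove j ≠ l0.succAbove k := fun h2 => h (Fin.succAbove_right_injective h2)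
        simp [h, h']
    have hQw : ∀ (w : Fin (r + 1) → ℤ), ∑ l, y l * w l = 0 → ∀ l,
        ∑ j, Q l j * w (l0.succAbove j) = y l0 * w l := by
      intro w hw l
      rw [Fin.sum_univ_succAbove _ l0] at hw
      by_cases h : l = l0
      · subst h
        simp only [hQ, if_true]
        have h1 : ∑ j, -y (l.succAbove j) * w (l.succAbove j) =
            - ∑ j, y (l.succAbove j) * w (l.succAbove j) := by
          rw [← Finset.sum_neg_distrib]
          refine Finset.sum_congr rfl fun j _ => by ring
        rw [h1]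
        linarith
      · obtain ⟨j, hj⟩ := Fin.exists_succAbove_eq h
        simp only [hQ, if_neg h]
        rw [Finset.sum_eq_single j]
        · rw [if_pos hj.symm, hj]
        · intro k _ hk
          rw [if_neg]
          · ring
          · intro h2
            apply hk
            exact Fin.succAbove_right_injective (h2.symm.trans hj.symm)
        · intro h2
          exact absurd (mem_univ _) h2
    have hPQ : ∀ (i : Fin n) (w : Fin (r + 1) → ℤ), ∑ l, y l * w l = 0 →
        ∑ j, (P * Q) i j * w (l0.succAbove j) = y l0 * ∑ l, P i l * w l := by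
      intro i w hw
      calc ∑ j, (P * Q) i j * w (l0.succAbove j)
          = ∑ j, ∑ l, P i l * (Q l j * w (l0.succAbove j)) := by
            refine Finset.sum_congr rfl fun j _ => ?_
            rw [Matrix.mul_apply, Finset.sum_mul]
            refine Finset.sum_congr rfl fun l _ => by ring
        _ = ∑ l, P i l * ∑ j, Q l j * w (l0.succAbove j) := by
            rw [Finset.sum_comm]
            refine Finset.sum_congr rfl fun l _ => ?_
            rw [Finset.mul_sum]
        _ = ∑ l, P i l * (y l0 * w l) := by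
            refine Finset.sum_congr rfl fun l _ => ?_
            rw [hQw w hw]
        _ = y l0 * ∑ l, P i l * w l := by
            rw [Finset.mul_sum]
            refine Finset.sum_congr rfl fun l _ => by ring
    refine ih (P * Q) (R * L) (c * y l0) (mul_ne_zero hc hl0) ?_ ?_ (fun t => N (φ t))
      (hN.comp hφ.tendsto_atTop) (fun t => e (φ t)) (C + Real.log |(y l0 : ℝ)|)
      (fun t => hD _) (fun t i => hbal _ i)
      (fun t j => z (φ t) (l0.succAbove j)) ?_ ?_ ?_
    · have h1 : R * L * (P * Q) = R * (L * P) * Q := by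
        simp only [Matrix.mul_assoc]
      rw [h1, hLP, Matrix.mul_smul, Matrix.smul_mul, Matrix.mul_one, hRQ, smul_smul]
    · intro j
      have h1 : ∑ i, (P * Q) i j = ∑ l, (∑ i, P i l) * Q l j := by
        simp only [Matrix.mul_apply, Finset.sum_mul]
        rw [Finset.sum_comm]
      rw [h1]
      simp [hsum]
    · intro t h
      apply hz (φ t)
      have h1 := hφy t
      rw [Fin.sum_univ_succAbove _ l0] at h1
      have h2 : ∀ j, z (φ t) (l0.succAbove j) = 0 := fun j => congrFun h j
      simp only [h2, mul_zero, Finset.sum_const_zero, add_zero] at h1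
      funext l
      by_cases h3 : l = l0
      · rw [h3]
        rcases mul_eq_zero.1 h1 with h4 | h4
        · exact absurd h4 hl0
        · exact h4
      · obtain ⟨j, hj⟩ := Fin.exists_succAbove_eq h3
        rw [← hj]
        exact h2 j
    · intro t i
      rw [hPQ i (z (φ t)) (hφy t)]
      exact (hdvd (φ t) i).mul_left _
    · intro t i
      rw [hPQ i (z (φ t)) (hφy t)]
      have h0 : (0 : ℝ) < |(y l0 : ℝ)| := by
        rw [abs_pos]
        exact_mod_cast hl0
      have h1 : ((y l0 * ∑ l, P i l * z (φ t) l : ℤ) : ℝ) =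
          (y l0 : ℝ) * ((∑ l, P i l * z (φ t) l : ℤ) : ℝ) := by push_cast; ring
      rw [h1, abs_mul, show (1 - γ) * N (φ t) + (C + Real.log |(y l0 : ℝ)|) =
        Real.log |(y l0 : ℝ)| + ((1 - γ) * N (φ t) + C) by ring,
        Real.exp_add (Real.log |(y l0 : ℝ)|), Real.exp_log h0]
      exact mul_le_mul_of_nonneg_left (hsize (φ t) i) h0.le

end Pool.Agent.H34x.NT
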