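import Pool.Agent.H34x.NT.Min
import Pool.Agent.H393R2.Geom3

/-!
# Short independent vectors of the lattices of the zero sum vectors divisible by powers
-/

set_option autoImplicit false

namespace Pool.Agent.H34x.NT

open Finset Filter Topology
open Pool.Agent.TH461.SST
open Pool.Agent.H393R2.Geom (app app_apply)

/-- the `m + 1` coordinates of a zero sum vector in terms of the first `m` -/
def PP (m : ℕ) : Matrix (Fin (m + 1)) (Fin m) ℤ := fun i l =>
  if i = Fin.last m then -1 else if i = l.castSucc then 1 else 0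

theorem PP_castSucc {m : ℕ} (l : Fin m) (z : Fin m → ℤ) :
    ∑ k, PP m l.castSucc k * z k = z l := by
  unfold PP
  rw [Finset.sum_eq_single l]
  · rw [if_neg (Fin.castSucc_ne_last l), if_pos rfl, one_mul]
  · intro k _ hk
    rw [if_neg (Fin.castSucc_ne_last l), if_neg, zero_mul]
    intro h
    exact hk (Fin.castSucc_injective m h).symm
  · intro h
    exact absurd (mem_univ _) h

theorem PP_last {m : ℕ} (z : Fin m → ℤ) :
    ∑ k, PP m (Fin.last m) k * z k = - ∑ k, z k := by
  unfold PP
  simp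

theorem PP_sum {m : ℕ} (l : Fin m) : ∑ i, PP m i l = 0 := by
  rw [Fin.sum_univ_castSucc]
  unfold PP
  simp only [if_true]
  have h1 : ∑ i : Fin m, (if (i.castSucc : Fin (m + 1)) = Fin.last m then (-1 : ℤ) else
      if i.castSucc = l.castSucc then 1 else 0) = 1 := by
    rw [Finset.sum_eq_single l]
    · rw [if_neg (Fin.castSucc_ne_last l), if_pos rfl]
    · intro k _ hk
      rw [if_neg (Fin.castSucc_ne_last k), if_neg]
      intro h
      exact hk (Fin.castSucc_injective m h)
    · intro h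
      exact absurd (mem_univ _) h
  rw [h1]
  ring

theorem PP_mul {m : ℕ} (x : Fin (m + 1) → ℤ) (hx : ∑ i, x i = 0) (i : Fin (m + 1)) :
    ∑ k, PP m i k * x k.castSucc = x i := by
  refine Fin.lastCases ?_ (fun l => ?_) i
  · rw [PP_last]
    rw [Fin.sum_univ_castSucc] at hx
    linarith
  · rw [PP_castSucc]

/-- **No short vectors, finite form.** -/
theorem short {m : ℕ} (b : Fin (m + 1) → ℕ) (hb : ∀ i, 2 ≤ b i)
    (hcop : ∀ i j, i ≠ j → Nat.Coprime (b i) (b j)) {γ : ℝ} (hγ : 0 < γ) (hγ1 : γ ≤ 1) :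
    ∃ N0 : ℝ, ∀ (N : ℝ) (e : Fin (m + 1) → ℕ), N0 ≤ N →
      (m : ℝ) * N ≤ ∑ i, (e i : ℝ) * Real.log (b i) → (∀ i, (e i : ℝ) * Real.log (b i) ≤ N) →
      ∀ z : Fin m → ℤ, z ≠ 0 → (∀ i, (b i : ℤ) ^ (e i) ∣ ∑ l, PP m i l * z l) →
        ∃ i, Real.exp ((1 - γ) * N) < |((∑ l, PP m i l * z l : ℤ) : ℝ)| := by
  by_contra hcon
  push Not at hcon
  choose N e hN hD hbal z hz hdvd hsize using fun t : ℕ => hcon (t : ℝ)
  refine no_short b hb hcop γ hγ hγ1 m (PP m)
    (Matrix.of fun l i => if i = l.castSucc then 1 else 0) 1 one_ne_zero ?_ PP_sum N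
    (tendsto_atTop_mono hN tendsto_natCast_atTop_atTop) e 0 (fun t => ?_) hbal z hz hdvd
    (fun t i => ?_)
  · ext l k
    rw [Matrix.mul_apply]
    simp only [Matrix.of_apply, ite_mul, one_mul, zero_mul, Finset.sum_ite_eq', Finset.mem_univ,
      if_true, one_smul, Matrix.one_apply]
    unfold PP
    rw [if_neg (Fin.castSucc_ne_last l)]
    by_cases h : l = k
    · simp [h]
    · rw [if_neg, if_neg h]
      intro h'
      exact h (Fin.castSucc_injective m h')
  · push_cast
    have := hD t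
    linarith
  · rw [add_zero]
    exact hsize t i

/-- **Short independent vectors.** The lattice of the `z` for which the coordinates `PP z` are
divisible by `b i ^ e i`. -/
theorem short_vectors {m : ℕ} (hm : 0 < m) (b : Fin (m + 1) → ℕ) (hb : ∀ i, 2 ≤ b i)
    (hcop : ∀ i j, i ≠ j → Nat.Coprime (b i) (b j)) {γ : ℝ} (hγ : 0 < γ) (hγ1 : γ ≤ 1) :
    ∃ (N0 C : ℝ) (Q : ℕ), 0 < C ∧ (Q = ⌈(m.factorial : ℝ) * (2 * (m : ℝ) ^ m) ^ m⌉₊) ∧
      ∀ (N : ℝ) (e : Fin (m + 1) → ℕ), N0 ≤ N →
      (m : ℝ) * N = ∑ i, (e i : ℝ) * Real.log (b i) → (∀ i, (e i : ℝ) * Real.log (b i) ≤ N) →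
      ∃ Z : Matrix (Fin m) (Fin m) ℤ,
        (∀ j i, (b i : ℤ) ^ (e i) ∣ ∑ l, PP m i l * Z j l) ∧
        (∀ j l, |(Z j l : ℝ)| ≤ C * Real.exp ((1 + m * γ) * N)) ∧
        Z.det ≠ 0 ∧ ∀ p : ℕ, p.Prime → Q < p → (∀ i, ¬ p ∣ b i) → ¬ (p : ℤ) ∣ Z.det := by
  classical
  obtain ⟨N0, hN0⟩ := short b hb hcop hγ hγ1
  set K : ℝ := 2 * (m : ℝ) ^ m with hK
  have hm1 : (1 : ℝ) ≤ m := by exact_mod_cast hm
  have hm0 : (0 : ℝ) < m := by linarith
  have hK1 : 1 ≤ K := by
    have : (1 : ℝ) ≤ (m : ℝ) ^ m := one_le_pow₀ hm1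
    rw [hK]; linarith
  refine ⟨max N0 0, K ^ m * m ^ m, _, by positivity, rfl, fun N e hN hD hbal => ?_⟩
  have hN1 : N0 ≤ N := (le_max_left _ _).trans hN
  have hN2 : 0 ≤ N := (le_max_right _ _).trans hN
  have hblog : ∀ i, 0 ≤ Real.log (b i) := fun i =>
    Real.log_nonneg (by exact_mod_cast (by have := hb i; omega : 1 ≤ b i))
  have hb0 : ∀ i, (0 : ℝ) < b i := fun i => by exact_mod_cast (by have := hb i; omega : 0 < b i)
  -- a basis of the lattice
  set l0 : Fin m := ⟨0, hm⟩ with hl0
  obtain ⟨B, hB0, hB1, hB2⟩ := Basis.basis m (m + 1) (fun v l j => if l = l0 then PP m v j else 0) b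
    hb (fun v l => if l = l0 then e v else 0)
  have hBiff : ∀ y : Fin m → ℤ, (∀ i, (b i : ℤ) ^ (e i) ∣ ∑ l, PP m i l * y l) ↔
      ∃ z : Fin m → ℤ, y = B.mulVec z := by
    intro y
    rw [← hB2 y]
    constructor
    · intro h v l
      by_cases hl : l = l0
      · simp only [hl, if_true]
        exact h v
      · simp [hl]
    · intro h i
      have := h i l0
      simpa using this
  set dB : ℝ := |(B.det : ℝ)| with hdB
  have hdB0 : 0 < dB := by
    rw [hdB, abs_pos]
    exact_mod_cast hB0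
  have hDexp : ((∏ i, (b i : ℤ) ^ (e i) : ℤ) : ℝ) = Real.exp (m * N) := by
    rw [hD, Real.exp_sum]
    push_cast
    refine Finset.prod_congr rfl fun i _ => ?_
    rw [mul_comm, Real.exp_mul, Real.exp_log (hb0 i), Real.rpow_natCast]
  have hdBle : dB ≤ Real.exp (m * N) := by
    rw [← hDexp, hdB]
    have h1 : |B.det| ≤ ∏ i, (b i : ℤ) ^ (e i) := by
      refine hB1.trans (le_of_eq ?_)
      refine Finset.prod_congr rfl fun i _ => ?_
      rw [Finset.prod_eq_single l0]
      · simp
      · intro l _ hl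
        simp [hl]
      · intro h
        exact absurd (mem_univ _) h
    have h2 : ((|B.det| : ℤ) : ℝ) ≤ ((∏ i, (b i : ℤ) ^ (e i) : ℤ) : ℝ) := by exact_mod_cast h1
    rw [Int.cast_abs] at h2
    exact h2
  -- the normalised matrix
  set s : ℝ := dB ^ (-(1 : ℝ) / m) with hs
  have hs0 : 0 < s := by positivity
  have hsm : s ^ m * dB = 1 := by
    rw [hs, ← Real.rpow_natCast, ← Real.rpow_mul hdB0.le]
    have h1 : -(1 : ℝ) / m * (m : ℕ) = -1 := by field_simp
    rw [h1, Real.rpow_neg_one, inv_mul_cancel₀ hdB0.ne']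
  set BR : Matrix (Fin m) (Fin m) ℝ := B.map (fun z : ℤ => (z : ℝ)) with hBR
  have hBRdet : BR.det = (B.det : ℝ) := by
    have := (Int.castRingHom ℝ).map_det B
    simpa using this.symm
  set L : Matrix (Fin m) (Fin m) ℝ := s • BR with hL
  have hLdet : |L.det| = 1 := by
    rw [hL, Matrix.det_smul, Fintype.card_fin, abs_mul, hBRdet, abs_of_pos (by positivity)]
    exact hsm
  have hLdet0 : L.det ≠ 0 := by
    intro h
    rw [h] at hLdet
    simp at hLdet
  have hLunit : IsUnit L.det := isUnit_iff_ne_zero.2 hLdet0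
  have hLs : (L⁻¹.transpose).transpose * L = 1 := by
    rw [Matrix.transpose_transpose]
    exact Matrix.nonsing_inv_mul L hLunit
  obtain ⟨G, hG0, hGmono, hGmin⟩ := Pool.Agent.H393R2.Geom.minima L _ hLs
  have hprod := Pool.Agent.H393R2.Geom.prod_upper L G hm hLdet hG0 hGmono hGmin
  -- the vectors
  have happ : ∀ j l, app L (G j) l = s * ((B.mulVec (G j) l : ℤ) : ℝ) := by
    intro j l
    rw [app_apply, hL, Matrix.smul_mulVec, Pi.smul_apply, smul_eq_mul]
    congr 1
    simp only [Matrix.mulVec, dotProduct, hBR, Matrix.map_apply]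
    push_cast
    rfl
  have hGj : ∀ j, G j ≠ 0 := by
    intro j h
    exact hG0 (Matrix.det_eq_zero_of_row_eq_zero j fun l => congrFun h l)
  have hBGj : ∀ j, B.mulVec (G j) ≠ 0 := by
    intro j h
    have h1 : (B.adjugate * B).mulVec (G j) = 0 := by
      rw [← Matrix.mulVec_mulVec, h, Matrix.mulVec_zero]
    rw [Matrix.adjugate_mul, Matrix.smul_mulVec, Matrix.one_mulVec] at h1
    rcases smul_eq_zero.1 h1 with h2 | h2
    · exact hB0 h2
    · exact hGj j h2
  have hnorm : ∀ j, Real.exp (-(γ * N)) / m ≤ ‖app L (G j)‖ := by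
    intro j
    obtain ⟨i, hi⟩ := hN0 N e hN1 hD.le hbal (B.mulVec (G j)) (hBGj j)
      ((hBiff _).2 ⟨G j, rfl⟩)
    set V := ‖app L (G j)‖ with hV
    have h1 : ∀ l, |((B.mulVec (G j) l : ℤ) : ℝ)| ≤ V / s := by
      intro l
      have h := norm_le_pi_norm (app L (G j)) l
      rw [happ, Real.norm_eq_abs, abs_mul, abs_of_pos hs0] at h
      rw [le_div_iff₀ hs0, mul_comm]
      exact h
    have hV0 : 0 ≤ V / s := div_nonneg (norm_nonneg _) hs0.le
    have h2 : |((∑ l, PP m i l * B.mulVec (G j) l : ℤ) : ℝ)| ≤ m * (V / s) := by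
      revert hi
      refine Fin.lastCases ?_ (fun l => ?_) i
      · intro _
        rw [PP_last]
        push_cast
        rw [abs_neg]
        refine (Finset.abs_sum_le_sum_abs _ _).trans ?_
        refine (Finset.sum_le_card_nsmul _ _ _ fun l _ => h1 l).trans ?_
        rw [Finset.card_univ, Fintype.card_fin, nsmul_eq_mul]
      · intro _
        rw [PP_castSucc]
        refine (h1 l).trans ?_
        nlinarith
    have h3 : Real.exp ((1 - γ) * N) ≤ m * (V / s) := hi.le.trans h2
    have h4 : s * Real.exp ((1 - γ) * N) ≤ m * V := by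
      have h5 : m * (V / s) = m * V / s := by ring
      rw [h5, le_div_iff₀ hs0] at h3
      linarith
    have h5 : Real.exp (-N) ≤ s := by
      rw [hs]
      have h6 : Real.exp (-N) = (Real.exp (m * N)) ^ (-(1 : ℝ) / m) := by
        rw [← Real.exp_mul]
        congr 1
        field_simp
      rw [h6]
      exact Real.rpow_le_rpow_of_nonpos hdB0 hdBle (by
        rw [neg_div]
        have : (0 : ℝ) ≤ 1 / m := by positivity
        linarith)
    have h6 : Real.exp (-(γ * N)) ≤ s * Real.exp ((1 - γ) * N) := by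
      calc Real.exp (-(γ * N)) = Real.exp (-N) * Real.exp ((1 - γ) * N) := by
            rw [← Real.exp_add]; congr 1; ring
        _ ≤ _ := mul_le_mul_of_nonneg_right h5 (Real.exp_pos _).le
    rw [div_le_iff₀ hm0]
    linarith
  have hnpos : ∀ j, 0 < ‖app L (G j)‖ := fun j => lt_of_lt_of_le (by positivity) (hnorm j)
  have hupper : ∀ j, ‖app L (G j)‖ ≤ K ^ m * (m * Real.exp (γ * N)) ^ m := by
    intro j
    have h1 : ‖app L (G j)‖ * ∏ i ∈ univ.erase j, ‖app L (G i)‖ ≤ K ^ m := by
      rw [Finset.mul_prod_erase univ (fun i => ‖app L (G i)‖) (mem_univ j)]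
      exact hprod
    have hq : Real.exp (-(γ * N)) / m = (m * Real.exp (γ * N))⁻¹ := by
      rw [Real.exp_neg, mul_inv]
      field_simp
    have h2 : ((m * Real.exp (γ * N))⁻¹) ^ m ≤ ∏ i ∈ univ.erase j, ‖app L (G i)‖ := by
      have h3 : ((m * Real.exp (γ * N))⁻¹) ^ (m - 1) ≤ ∏ i ∈ univ.erase j, ‖app L (G i)‖ := by
        have h4 : (univ.erase j : Finset (Fin m)).card = m - 1 := by
          rw [Finset.card_erase_of_mem (mem_univ j), Finset.card_univ, Fintype.card_fin]
        rw [← h4, ← Finset.prod_const]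
        refine Finset.prod_le_prod (fun i _ => by positivity) fun i _ => ?_
        rw [← hq]
        exact hnorm i
      refine le_trans ?_ h3
      apply pow_le_pow_of_le_one (by positivity)
      · rw [inv_le_one_iff₀]
        right
        have h4 : 1 ≤ Real.exp (γ * N) := Real.one_le_exp (by positivity)
        nlinarith
      · omega
    have h3 : 0 < (m * Real.exp (γ * N)) ^ m := by positivity
    have h4 : ‖app L (G j)‖ * ((m * Real.exp (γ * N))⁻¹) ^ m ≤ K ^ m :=
      (mul_le_mul_of_nonneg_left h2 (norm_nonneg _)).trans h1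
    rw [inv_pow, ← div_eq_mul_inv, div_le_iff₀ h3] at h4
    exact h4
  refine ⟨fun j l => B.mulVec (G j) l, fun j i => (hBiff _).2 ⟨G j, rfl⟩ i, ?_, ?_, ?_⟩
  · intro j l
    have h1 : |((B.mulVec (G j) l : ℤ) : ℝ)| = |app L (G j) l| / s := by
      rw [happ, abs_mul, abs_of_pos hs0]
      field_simp
    rw [h1]
    have h2 : |app L (G j) l| ≤ K ^ m * (m * Real.exp (γ * N)) ^ m :=
      (norm_le_pi_norm (app L (G j)) l).trans (hupper j)
    have h3 : 1 / s ≤ Real.exp N := by
      have h5 : 1 / s = dB ^ ((1 : ℝ) / m) := by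
        rw [hs, neg_div, Real.rpow_neg hdB0.le, one_div, inv_inv]
      rw [h5]
      calc dB ^ ((1 : ℝ) / m) ≤ (Real.exp (m * N)) ^ ((1 : ℝ) / m) :=
            Real.rpow_le_rpow hdB0.le hdBle (by positivity)
        _ = Real.exp N := by
            rw [← Real.exp_mul]
            congr 1
            field_simp
    calc |app L (G j) l| / s = |app L (G j) l| * (1 / s) := by ring
      _ ≤ (K ^ m * (m * Real.exp (γ * N)) ^ m) * Real.exp N :=
          mul_le_mul h2 h3 (by positivity) (by positivity)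
      _ = K ^ m * m ^ m * Real.exp ((1 + m * γ) * N) := by
          rw [mul_pow (m : ℝ) (Real.exp (γ * N)) m, ← Real.exp_nat_mul,
            show (1 + m * γ) * N = m * (γ * N) + N by ring, Real.exp_add]
          ring
  · have h1 : (Matrix.of fun j l => B.mulVec (G j) l) = G * B.transpose := by
      ext j l
      rw [Matrix.mul_apply]
      simp only [Matrix.of_apply, Matrix.mulVec, dotProduct, Matrix.transpose_apply]
      refine Finset.sum_congr rfl fun i _ => by ring
    have h2 : Matrix.det (fun j l => B.mulVec (G j) l) = G.det * B.det := by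
      have h3 : (fun j l => B.mulVec (G j) l) = G * B.transpose := h1
      rw [h3, Matrix.det_mul, Matrix.det_transpose]
    rw [h2]
    exact mul_ne_zero hG0 hB0
  · intro p hp hQp hpb hdvd
    have h1 : (Matrix.of fun j l => B.mulVec (G j) l) = G * B.transpose := by
      ext j l
      rw [Matrix.mul_apply]
      simp only [Matrix.of_apply, Matrix.mulVec, dotProduct, Matrix.transpose_apply]
      refine Finset.sum_congr rfl fun i _ => by ring
    have h2 : Matrix.det (fun j l => B.mulVec (G j) l) = G.det * B.det := by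
      have h3 : (fun j l => B.mulVec (G j) l) = G * B.transpose := h1
      rw [h3, Matrix.det_mul, Matrix.det_transpose]
    rw [h2] at hdvd
    have hpZ : Prime (p : ℤ) := Nat.prime_iff_prime_int.1 hp
    rcases hpZ.dvd_or_dvd hdvd with h3 | h3
    · -- `|det G| ≤ Q`
      have h4 := Pool.Agent.H393R2.Geom.abs_det_le (Pool.Agent.H393R2.Geom.MM L G)
        (fun j => ‖app L (G j)‖) (by
          intro i l
          rw [Pool.Agent.H393R2.Geom.MM_apply]
          exact norm_le_pi_norm (app L (G i)) l)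
      rw [Pool.Agent.H393R2.Geom.det_MM, abs_mul, hLdet, mul_one] at h4
      have h5 : |(G.det : ℝ)| ≤ (m.factorial : ℝ) * K ^ m := by
        refine h4.trans ?_
        exact mul_le_mul_of_nonneg_left hprod (by positivity)
      have h6 : (p : ℤ) ≤ |G.det| := by
        have h7 : 0 < |G.det| := abs_pos.2 hG0
        exact Int.le_of_dvd h7 ((dvd_abs _ _).2 h3)
      have h7 : (p : ℝ) ≤ |(G.det : ℝ)| := by
        have h8 : ((p : ℤ) : ℝ) ≤ ((|G.det| : ℤ) : ℝ) := by exact_mod_cast h6
        rw [Int.cast_abs] at h8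
        exact_mod_cast h8
      have h8 : (p : ℝ) ≤ (⌈(m.factorial : ℝ) * K ^ m⌉₊ : ℝ) :=
        h7.trans (h5.trans (Nat.le_ceil _))
      have h9 : p ≤ ⌈(m.factorial : ℝ) * K ^ m⌉₊ := by exact_mod_cast h8
      omega
    · -- `det B` divides a power of `D`
      set D : ℤ := ∏ i, (b i : ℤ) ^ (e i) with hDdef
      have h4 : ∀ k : Fin m, ∃ y : Fin m → ℤ, (fun l => if l = k then D else 0) = B.mulVec y := by
        intro k
        rw [← hBiff]
        intro i
        apply Dvd.dvd.trans (b := D)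
        · exact Finset.dvd_prod_of_mem _ (mem_univ i)
        · apply Finset.dvd_sum
          intro l _
          split_ifs
          · exact Dvd.intro_left _ rfl
          · simp
      choose y hy using h4
      have h5 : B * (Matrix.of fun l k => y k l) = D • (1 : Matrix (Fin m) (Fin m) ℤ) := by
        ext l k
        have h6 := congrFun (hy k) l
        rw [Matrix.mul_apply]
        simp only [Matrix.mulVec, dotProduct] at h6
        simp only [Matrix.of_apply]
        rw [← h6]
        simp [Matrix.one_apply]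
      have h6 : B.det * (Matrix.of fun l k => y k l).det = D ^ m := by
        rw [← Matrix.det_mul, h5, Matrix.det_smul, Matrix.det_one, Fintype.card_fin, mul_one]
      have h7 : (p : ℤ) ∣ D ^ m := h3.trans (Dvd.intro _ h6)
      have h8 : (p : ℤ) ∣ D := hpZ.dvd_of_dvd_pow h7
      rw [hDdef, Prime.dvd_finsetProd_iff hpZ] at h8
      obtain ⟨i, _, hi⟩ := h8
      have h9 := hpZ.dvd_of_dvd_pow hi
      exact hpb i (by exact_mod_cast h9)

end Pool.Agent.H34x.NT
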