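import Pool.Agent.H34x.NT.Final
import Pool.Agent.H34x.MA.Dim

/-!
# Triples near every real number
-/

set_option autoImplicit false

namespace Pool.Agent.H34x.NT

open Finset Filter
open Pool.Agent.H785R2.ABC (rad)
open Pool.Agent.H34x.MA (Ap)

theorem three {al be ga : ℝ} (a0 : 0 < al) (b0 : 0 < be) (g0 : 0 < ga) (a1 : al ≤ 1) (b1 : be ≤ 1)
    (g1 : ga ≤ 1) (hs : 1 < al + be + ga) {τ : ℝ} (ha : τ < al) (hb : τ < be) (hg : τ < ga)
    (hτ : 2 * τ < al + be + ga - 1) {ξ : ℝ} (hξ0 : 0 ≤ ξ) (hξ1 : ξ ≤ 1) (B : ℝ) :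
    ∃ t ∈ Ap al be ga, B ≤ t.2 ∧ |ξ - (t.1 : ℝ) / t.2| ≤ (t.2 : ℝ) ^ (-τ) := by
  set τ' : ℝ := max τ 0 with hτ'
  have hτ'0 : 0 ≤ τ' := le_max_right _ _
  have hτ'1 : τ ≤ τ' := le_max_left _ _
  have hM0 : τ' < min (min al be) (min ga ((al + be + ga - 1) / 2)) := by
    refine max_lt (lt_min (lt_min ha hb) (lt_min hg (by linarith)))
      (lt_min (lt_min a0 b0) (lt_min g0 (by linarith)))
  obtain ⟨τ1, hτ11, hτ12⟩ := exists_between hM0
  have k1 : τ1 < al := hτ12.trans_le ((min_le_left _ _).trans (min_le_left _ _))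
  have k2 : τ1 < be := hτ12.trans_le ((min_le_left _ _).trans (min_le_right _ _))
  have k3 : τ1 < ga := hτ12.trans_le ((min_le_right _ _).trans (min_le_left _ _))
  have k4 : τ1 < (al + be + ga - 1) / 2 :=
    hτ12.trans_le ((min_le_right _ _).trans (min_le_right _ _))
  have hall : ∀ (P : Fin 3 → Prop), P 0 → P 1 → P 2 → ∀ i, P i := by
    intro P h0 h1 h2 i
    fin_cases i
    · exact h0
    · exact h1
    · exact h2
  set α : Fin 3 → ℝ := ![al, be, ga] with hα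
  have e0 : α 0 = al := rfl
  have e1 : α 1 = be := rfl
  have e2 : α 2 = ga := rfl
  have hsum : ∑ i, α i = al + be + ga := by
    rw [Fin.sum_univ_three, e0, e1, e2]
  have h2 := near (m := 2) le_rfl α (hall _ a0 b0 g0) (hall _ a1 b1 g1) (by rw [hsum]; exact hs)
    (τ := τ1) (hall _ k1 k2 k3) (by rw [hsum]; push_cast; linarith)
  have f1 := ev_le 8 (show 1 - τ1 < 1 by linarith)
  have f2 := ev_le (8 * 2 ^ τ') (show -τ1 < -τ' by linarith)
  obtain ⟨T, hT, hT1, hT2, hT3, hTB⟩ := (h2.and (f1.and (f2.and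
    ((eventually_ge_atTop 2).and (eventually_ge_atTop (2 * B)))))).exists
  have hT0 : 0 < T := by linarith
  rw [Real.rpow_one] at hT1
  set E : ℝ := T ^ (1 - τ1) with hE
  have hE0 : 0 < E := Real.rpow_pos_of_pos hT0 _
  -- the target
  set u : ℝ := max (2 * E) (min (T * ξ) (T - 2 * E)) with hu
  have hu1 : 2 * E ≤ u := le_max_left _ _
  have hu2 : u ≤ T - 2 * E := max_le (by linarith) (min_le_right _ _)
  have hu3 : |u - T * ξ| ≤ 2 * E := by
    have hTξ0 : 0 ≤ T * ξ := by positivity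
    have hTξ1 : T * ξ ≤ T := mul_le_of_le_one_right hT0.le hξ1
    rw [abs_le, hu]
    rcases le_total (T * ξ) (T - 2 * E) with h | h
    · rw [min_eq_left h]
      rcases le_total (2 * E) (T * ξ) with h' | h'
      · rw [max_eq_right h']
        constructor <;> linarith
      · rw [max_eq_left h']
        constructor <;> linarith
    · rw [min_eq_right h, max_eq_right (by linarith)]
      constructor <;> linarith
  obtain ⟨x, ⟨hx1, hx2, hx3⟩, hx4, hx5⟩ := hT ![u, T - u, -T] (by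
      rw [Fin.sum_univ_three]
      show u + (T - u) + (-T) = 0
      ring) (hall _ (by
      show |u| ≤ T
      rw [abs_le]; constructor <;> linarith) (by
      show |T - u| ≤ T
      rw [abs_le]; constructor <;> linarith) (by
      show |(-T)| ≤ T
      rw [abs_neg, abs_of_pos hT0]))
  have y0 : |(x 0 : ℝ) - u| ≤ E := hx4 0
  have y1 : |(x 1 : ℝ) - (T - u)| ≤ E := hx4 1
  have y2 : |(x 2 : ℝ) - (-T)| ≤ E := hx4 2
  rw [abs_le] at y0 y1 y2
  have p0 : (0 : ℝ) < x 0 := by linarith [y0.1]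
  have p1 : (0 : ℝ) < x 1 := by linarith [y1.1]
  have p0' : 0 < x 0 := by exact_mod_cast p0
  have p1' : 0 < x 1 := by exact_mod_cast p1
  rw [Fin.sum_univ_three] at hx1
  obtain ⟨a, haa⟩ := Int.eq_ofNat_of_zero_le p0'.le
  obtain ⟨b, hbb⟩ := Int.eq_ofNat_of_zero_le p1'.le
  have hcc : x 2 = -((a + b : ℕ) : ℤ) := by
    push_cast
    rw [haa, hbb] at hx1
    linarith
  have ha' : 0 < a := by rw [haa] at p0'; exact_mod_cast p0'
  have hb' : 0 < b := by rw [hbb] at p1'; exact_mod_cast p1'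
  have hcR : (x 2 : ℝ) = -((a + b : ℕ) : ℝ) := by rw [hcc]; push_cast; ring
  have haR : (x 0 : ℝ) = a := by rw [haa]; push_cast; rfl
  set c : ℕ := a + b with hc
  have hcT1 : (c : ℝ) ≤ T + E := by rw [hcR] at y2; linarith [y2.1]
  have hcT2 : T - E ≤ (c : ℝ) := by rw [hcR] at y2; linarith [y2.2]
  have hc1 : T / 2 ≤ (c : ℝ) := by linarith
  have hc2 : (c : ℝ) ≤ 2 * T := by linarith
  have hc0 : (0 : ℝ) < c := by linarith
  have hc3 : (1 : ℝ) ≤ c := by linarith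
  have hrad : ∀ (i : Fin 3) (n : ℕ), (x i).natAbs = n → 0 ≤ α i → α i ≤ 1 →
      (rad n : ℝ) ≤ (c : ℝ) ^ (α i) := by
    intro i n hn h0 h1
    rw [← hn]
    refine (hx5 i).trans ?_
    have h3 : T ^ (α i) ≤ (2 * c) ^ (α i) := Real.rpow_le_rpow hT0.le (by linarith) h0
    rw [Real.mul_rpow (by norm_num) hc0.le] at h3
    have h4 : (2 : ℝ) ^ (α i) ≤ 2 := by
      have := Real.rpow_le_rpow_of_exponent_le (show (1 : ℝ) ≤ 2 by norm_num) h1
      rwa [Real.rpow_one] at this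
    have h5 := Real.rpow_nonneg hc0.le (α i)
    nlinarith
  refine ⟨(a, c), ⟨ha', ?_, ?_, ?_, ?_, ?_⟩, ?_, ?_⟩
  · show a < c
    omega
  · show Nat.Coprime a c
    have h3 := hx2 0 1 (by decide)
    rw [haa, hbb] at h3
    have h4 : Nat.Coprime a b := Nat.isCoprime_iff_coprime.1 h3
    rw [hc]
    exact (Nat.coprime_self_add_right).2 h4
  · exact hrad 0 a (by rw [haa]; rfl) a0.le a1
  · have h3 : c - a = b := by omega
    show (rad (c - a) : ℝ) ≤ (c : ℝ) ^ be
    rw [h3]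
    exact hrad 1 b (by rw [hbb]; rfl) b0.le b1
  · exact hrad 2 c (by rw [hcc, Int.natAbs_neg]; rfl) g0.le g1
  · show B ≤ (c : ℝ)
    linarith
  · show |ξ - (a : ℝ) / c| ≤ (c : ℝ) ^ (-τ)
    have h3 : ξ - (a : ℝ) / c = -(((a : ℝ) - T * ξ) + (T - c) * ξ) / c := by
      field_simp
      ring
    rw [h3, abs_div, abs_of_pos hc0, div_le_iff₀ hc0, abs_neg]
    have h4 : |((a : ℝ) - T * ξ) + (T - c) * ξ| ≤ 4 * E := by
      refine (abs_add_le _ _).trans ?_
      have h5 : |(a : ℝ) - T * ξ| ≤ 3 * E := by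
        have e3 : (a : ℝ) - T * ξ = ((a : ℝ) - u) + (u - T * ξ) := by ring
        rw [e3]
        refine (abs_add_le _ _).trans ?_
        have h6 : |(a : ℝ) - u| ≤ E := by
          rw [← haR, abs_le]
          exact y0
        linarith
      have h6 : |(T - (c : ℝ)) * ξ| ≤ E := by
        rw [abs_mul, abs_of_nonneg hξ0]
        have h7 : |T - (c : ℝ)| ≤ E := abs_le.2 ⟨by linarith, by linarith⟩
        calc |T - (c : ℝ)| * ξ ≤ E * 1 := mul_le_mul h7 hξ1 hξ0 hE0.le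
          _ = E := mul_one _
      linarith
    refine h4.trans ?_
    have h5 : (c : ℝ) ^ (-τ') ≤ (c : ℝ) ^ (-τ) :=
      Real.rpow_le_rpow_of_exponent_le hc3 (by linarith)
    have h6 : (2 * T) ^ (-τ') ≤ (c : ℝ) ^ (-τ') :=
      Real.rpow_le_rpow_of_nonpos hc0 hc2 (by linarith)
    have h7 : 8 * T ^ (-τ1) ≤ (2 * T) ^ (-τ') := by
      rw [Real.mul_rpow (by norm_num) hT0.le, Real.rpow_neg (by norm_num) τ']
      rw [inv_mul_eq_div, le_div_iff₀ (by positivity)]
      calc 8 * T ^ (-τ1) * 2 ^ τ' = 8 * 2 ^ τ' * T ^ (-τ1) := by ring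
        _ ≤ _ := hT2
    have h8 : E = T * T ^ (-τ1) := by
      rw [hE, sub_eq_add_neg, Real.rpow_add hT0, Real.rpow_one]
    have h9 : 8 * T ^ (-τ1) ≤ (c : ℝ) ^ (-τ) := h7.trans (h6.trans h5)
    have h10 : (8 * T ^ (-τ1)) * (T / 2) ≤ (c : ℝ) ^ (-τ) * c :=
      mul_le_mul h9 hc1 (by linarith) (Real.rpow_nonneg hc0.le _)
    rw [h8]
    linarith

end Pool.Agent.H34x.NT
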